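import Pool.Agent.H349R2.HS.Def
import Pool.Agent.H486R3.HS.Final

/-!
ROOM HS, task COMG (helper124): the data of the cometric on `S³ × S³` at a point and their
derivatives along the left invariant fields.
-/

open ContDiff Metric
open scoped Topology RealInnerProductSpace

set_option autoImplicit false
set_option linter.unusedSectionVars false
set_option linter.unusedSimpArgs false
set_option linter.unnecessarySeqFocus false

noncomputable section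

namespace H124HS

open HopfPP HopfG
open Pool.Agent.H893R5.HO

/-! ### Algebra -/

section alg

variable {R : Type*} [CommRing R]

theorem V_ext {a b : V R} (h0 : a 0 = b 0) (h1 : a 1 = b 1) (h2 : a 2 = b 2) : a = b := by
  funext i
  fin_cases i
  · exact h0
  · exact h1
  · exact h2

theorem cx_0 (a b : V R) : cx a b 0 = a 1 * b 2 - a 2 * b 1 := rfl

theorem cx_1 (a b : V R) : cx a b 1 = a 2 * b 0 - a 0 * b 2 := rfl

theorem cx_2 (a b : V R) : cx a b 2 = a 0 * b 1 - a 1 * b 0 := rfl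

theorem mv_0 (M : Fin 3 → V R) (a : V R) : mv M a 0 = dt (M 0) a := rfl

theorem mv_1 (M : Fin 3 → V R) (a : V R) : mv M a 1 = dt (M 1) a := rfl

theorem mv_2 (M : Fin 3 → V R) (a : V R) : mv M a 2 = dt (M 2) a := rfl

theorem mvT_0 (M : Fin 3 → V R) (a : V R) :
    HopfS.mvT M a 0 = M 0 0 * a 0 + M 1 0 * a 1 + M 2 0 * a 2 := rfl

theorem mvT_1 (M : Fin 3 → V R) (a : V R) :
    HopfS.mvT M a 1 = M 0 1 * a 0 + M 1 1 * a 1 + M 2 1 * a 2 := rfl

theorem mvT_2 (M : Fin 3 → V R) (a : V R) :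
    HopfS.mvT M a 2 = M 0 2 * a 0 + M 1 2 * a 1 + M 2 2 * a 2 := rfl

theorem vc_0 (a b c : R) : (![a, b, c] : V R) 0 = a := rfl

theorem vc_1 (a b c : R) : (![a, b, c] : V R) 1 = b := rfl

theorem vc_2 (a b c : R) : (![a, b, c] : V R) 2 = c := rfl

theorem cx_add_l (a b c : V R) : cx (a + b) c = cx a c + cx b c := by
  apply V_ext <;> (simp only [Pi.add_apply, Pi.sub_apply, Pi.smul_apply, Pi.neg_apply, smul_eq_mul,
    cx_0, cx_1, cx_2, mv_0, mv_1, mv_2, mvT_0, mvT_1, mvT_2, vc_0, vc_1, vc_2, dt, HopfS.ad,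
    HopfS.adT, HopfS.qm, HopfS.im, Prod.fst_sub, Prod.snd_sub, Prod.fst_add, Prod.snd_add,
    Prod.fst_neg, Prod.snd_neg, Pi.zero_apply, zero_smul] <;> ring)

theorem cx_add_r (a b c : V R) : cx a (b + c) = cx a b + cx a c := by
  apply V_ext <;> (simp only [Pi.add_apply, Pi.sub_apply, Pi.smul_apply, Pi.neg_apply, smul_eq_mul,
    cx_0, cx_1, cx_2, mv_0, mv_1, mv_2, mvT_0, mvT_1, mvT_2, vc_0, vc_1, vc_2, dt, HopfS.ad,
    HopfS.adT, HopfS.qm, HopfS.im, Prod.fst_sub, Prod.snd_sub, Prod.fst_add, Prod.snd_add,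
    Prod.fst_neg, Prod.snd_neg, Pi.zero_apply, zero_smul] <;> ring)

theorem cx_sub_l (a b c : V R) : cx (a - b) c = cx a c - cx b c := by
  apply V_ext <;> (simp only [Pi.add_apply, Pi.sub_apply, Pi.smul_apply, Pi.neg_apply, smul_eq_mul,
    cx_0, cx_1, cx_2, mv_0, mv_1, mv_2, mvT_0, mvT_1, mvT_2, vc_0, vc_1, vc_2, dt, HopfS.ad,
    HopfS.adT, HopfS.qm, HopfS.im, Prod.fst_sub, Prod.snd_sub, Prod.fst_add, Prod.snd_add,
    Prod.fst_neg, Prod.snd_neg, Pi.zero_apply, zero_smul] <;> ring)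

theorem cx_sub_r (a b c : V R) : cx a (b - c) = cx a b - cx a c := by
  apply V_ext <;> (simp only [Pi.add_apply, Pi.sub_apply, Pi.smul_apply, Pi.neg_apply, smul_eq_mul,
    cx_0, cx_1, cx_2, mv_0, mv_1, mv_2, mvT_0, mvT_1, mvT_2, vc_0, vc_1, vc_2, dt, HopfS.ad,
    HopfS.adT, HopfS.qm, HopfS.im, Prod.fst_sub, Prod.snd_sub, Prod.fst_add, Prod.snd_add,
    Prod.fst_neg, Prod.snd_neg, Pi.zero_apply, zero_smul] <;> ring)

theorem cx_neg_r (a b : V R) : cx a (-b) = -cx a b := by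
  apply V_ext <;> (simp only [Pi.add_apply, Pi.sub_apply, Pi.smul_apply, Pi.neg_apply, smul_eq_mul,
    cx_0, cx_1, cx_2, mv_0, mv_1, mv_2, mvT_0, mvT_1, mvT_2, vc_0, vc_1, vc_2, dt, HopfS.ad,
    HopfS.adT, HopfS.qm, HopfS.im, Prod.fst_sub, Prod.snd_sub, Prod.fst_add, Prod.snd_add,
    Prod.fst_neg, Prod.snd_neg, Pi.zero_apply, zero_smul] <;> ring)

theorem cx_smul_l (c : R) (a b : V R) : cx (c • a) b = c • cx a b := by
  apply V_ext <;> (simp only [Pi.add_apply, Pi.sub_apply, Pi.smul_apply, Pi.neg_apply, smul_eq_mul,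
    cx_0, cx_1, cx_2, mv_0, mv_1, mv_2, mvT_0, mvT_1, mvT_2, vc_0, vc_1, vc_2, dt, HopfS.ad,
    HopfS.adT, HopfS.qm, HopfS.im, Prod.fst_sub, Prod.snd_sub, Prod.fst_add, Prod.snd_add,
    Prod.fst_neg, Prod.snd_neg, Pi.zero_apply, zero_smul] <;> ring)

theorem cx_smul_r (c : R) (a b : V R) : cx a (c • b) = c • cx a b := by
  apply V_ext <;> (simp only [Pi.add_apply, Pi.sub_apply, Pi.smul_apply, Pi.neg_apply, smul_eq_mul,
    cx_0, cx_1, cx_2, mv_0, mv_1, mv_2, mvT_0, mvT_1, mvT_2, vc_0, vc_1, vc_2, dt, HopfS.ad,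
    HopfS.adT, HopfS.qm, HopfS.im, Prod.fst_sub, Prod.snd_sub, Prod.fst_add, Prod.snd_add,
    Prod.fst_neg, Prod.snd_neg, Pi.zero_apply, zero_smul] <;> ring)

theorem mv_add (M : Fin 3 → V R) (a b : V R) : mv M (a + b) = mv M a + mv M b := by
  apply V_ext <;> (simp only [Pi.add_apply, Pi.sub_apply, Pi.smul_apply, Pi.neg_apply, smul_eq_mul,
    cx_0, cx_1, cx_2, mv_0, mv_1, mv_2, mvT_0, mvT_1, mvT_2, vc_0, vc_1, vc_2, dt, HopfS.ad,
    HopfS.adT, HopfS.qm, HopfS.im, Prod.fst_sub, Prod.snd_sub, Prod.fst_add, Prod.snd_add,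
    Prod.fst_neg, Prod.snd_neg, Pi.zero_apply, zero_smul] <;> ring)

theorem mv_sub (M : Fin 3 → V R) (a b : V R) : mv M (a - b) = mv M a - mv M b := by
  apply V_ext <;> (simp only [Pi.add_apply, Pi.sub_apply, Pi.smul_apply, Pi.neg_apply, smul_eq_mul,
    cx_0, cx_1, cx_2, mv_0, mv_1, mv_2, mvT_0, mvT_1, mvT_2, vc_0, vc_1, vc_2, dt, HopfS.ad,
    HopfS.adT, HopfS.qm, HopfS.im, Prod.fst_sub, Prod.snd_sub, Prod.fst_add, Prod.snd_add,
    Prod.fst_neg, Prod.snd_neg, Pi.zero_apply, zero_smul] <;> ring)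

theorem mv_neg (M : Fin 3 → V R) (a : V R) : mv M (-a) = -mv M a := by
  apply V_ext <;> (simp only [Pi.add_apply, Pi.sub_apply, Pi.smul_apply, Pi.neg_apply, smul_eq_mul,
    cx_0, cx_1, cx_2, mv_0, mv_1, mv_2, mvT_0, mvT_1, mvT_2, vc_0, vc_1, vc_2, dt, HopfS.ad,
    HopfS.adT, HopfS.qm, HopfS.im, Prod.fst_sub, Prod.snd_sub, Prod.fst_add, Prod.snd_add,
    Prod.fst_neg, Prod.snd_neg, Pi.zero_apply, zero_smul] <;> ring)

theorem mv_smul (M : Fin 3 → V R) (c : R) (a : V R) : mv M (c • a) = c • mv M a := by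
  apply V_ext <;> (simp only [Pi.add_apply, Pi.sub_apply, Pi.smul_apply, Pi.neg_apply, smul_eq_mul,
    cx_0, cx_1, cx_2, mv_0, mv_1, mv_2, mvT_0, mvT_1, mvT_2, vc_0, vc_1, vc_2, dt, HopfS.ad,
    HopfS.adT, HopfS.qm, HopfS.im, Prod.fst_sub, Prod.snd_sub, Prod.fst_add, Prod.snd_add,
    Prod.fst_neg, Prod.snd_neg, Pi.zero_apply, zero_smul] <;> ring)

theorem mvT_add (M : Fin 3 → V R) (a b : V R) :
    HopfS.mvT M (a + b) = HopfS.mvT M a + HopfS.mvT M b := by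
  apply V_ext <;> (simp only [Pi.add_apply, Pi.sub_apply, Pi.smul_apply, Pi.neg_apply, smul_eq_mul,
    cx_0, cx_1, cx_2, mv_0, mv_1, mv_2, mvT_0, mvT_1, mvT_2, vc_0, vc_1, vc_2, dt, HopfS.ad,
    HopfS.adT, HopfS.qm, HopfS.im, Prod.fst_sub, Prod.snd_sub, Prod.fst_add, Prod.snd_add,
    Prod.fst_neg, Prod.snd_neg, Pi.zero_apply, zero_smul] <;> ring)

theorem mvT_smul (M : Fin 3 → V R) (c : R) (a : V R) :
    HopfS.mvT M (c • a) = c • HopfS.mvT M a := by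
  apply V_ext <;> (simp only [Pi.add_apply, Pi.sub_apply, Pi.smul_apply, Pi.neg_apply, smul_eq_mul,
    cx_0, cx_1, cx_2, mv_0, mv_1, mv_2, mvT_0, mvT_1, mvT_2, vc_0, vc_1, vc_2, dt, HopfS.ad,
    HopfS.adT, HopfS.qm, HopfS.im, Prod.fst_sub, Prod.snd_sub, Prod.fst_add, Prod.snd_add,
    Prod.fst_neg, Prod.snd_neg, Pi.zero_apply, zero_smul] <;> ring)

theorem ad_add (g : HopfS.Q4 R) (a b : V R) :
    HopfS.ad g (a + b) = HopfS.ad g a + HopfS.ad g b := by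
  apply V_ext <;> (simp only [Pi.add_apply, Pi.sub_apply, Pi.smul_apply, Pi.neg_apply, smul_eq_mul,
    cx_0, cx_1, cx_2, mv_0, mv_1, mv_2, mvT_0, mvT_1, mvT_2, vc_0, vc_1, vc_2, dt, HopfS.ad,
    HopfS.adT, HopfS.qm, HopfS.im, Prod.fst_sub, Prod.snd_sub, Prod.fst_add, Prod.snd_add,
    Prod.fst_neg, Prod.snd_neg, Pi.zero_apply, zero_smul] <;> ring)

theorem ad_smul (g : HopfS.Q4 R) (c : R) (a : V R) :
    HopfS.ad g (c • a) = c • HopfS.ad g a := by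
  apply V_ext <;> (simp only [Pi.add_apply, Pi.sub_apply, Pi.smul_apply, Pi.neg_apply, smul_eq_mul,
    cx_0, cx_1, cx_2, mv_0, mv_1, mv_2, mvT_0, mvT_1, mvT_2, vc_0, vc_1, vc_2, dt, HopfS.ad,
    HopfS.adT, HopfS.qm, HopfS.im, Prod.fst_sub, Prod.snd_sub, Prod.fst_add, Prod.snd_add,
    Prod.fst_neg, Prod.snd_neg, Pi.zero_apply, zero_smul] <;> ring)

theorem adT_add (g : HopfS.Q4 R) (a b : V R) :
    HopfS.adT g (a + b) = HopfS.adT g a + HopfS.adT g b := by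
  apply V_ext <;> (simp only [Pi.add_apply, Pi.sub_apply, Pi.smul_apply, Pi.neg_apply, smul_eq_mul,
    cx_0, cx_1, cx_2, mv_0, mv_1, mv_2, mvT_0, mvT_1, mvT_2, vc_0, vc_1, vc_2, dt, HopfS.ad,
    HopfS.adT, HopfS.qm, HopfS.im, Prod.fst_sub, Prod.snd_sub, Prod.fst_add, Prod.snd_add,
    Prod.fst_neg, Prod.snd_neg, Pi.zero_apply, zero_smul] <;> ring)

theorem adT_smul (g : HopfS.Q4 R) (c : R) (a : V R) :
    HopfS.adT g (c • a) = c • HopfS.adT g a := by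
  apply V_ext <;> (simp only [Pi.add_apply, Pi.sub_apply, Pi.smul_apply, Pi.neg_apply, smul_eq_mul,
    cx_0, cx_1, cx_2, mv_0, mv_1, mv_2, mvT_0, mvT_1, mvT_2, vc_0, vc_1, vc_2, dt, HopfS.ad,
    HopfS.adT, HopfS.qm, HopfS.im, Prod.fst_sub, Prod.snd_sub, Prod.fst_add, Prod.snd_add,
    Prod.fst_neg, Prod.snd_neg, Pi.zero_apply, zero_smul] <;> ring)

theorem dt_ad (g : HopfS.Q4 R) (a b : V R) : dt (HopfS.ad g a) b = dt a (HopfS.adT g b) := by
  simp only [Pi.add_apply, Pi.sub_apply, Pi.smul_apply, Pi.neg_apply, smul_eq_mul,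
    cx_0, cx_1, cx_2, mv_0, mv_1, mv_2, mvT_0, mvT_1, mvT_2, vc_0, vc_1, vc_2, dt, HopfS.ad,
    HopfS.adT, HopfS.qm, HopfS.im, Prod.fst_sub, Prod.snd_sub, Prod.fst_add, Prod.snd_add,
    Prod.fst_neg, Prod.snd_neg, Pi.zero_apply, zero_smul] 
  ring

theorem dt_mvT (M : Fin 3 → V R) (a b : V R) : dt (mv M a) b = dt a (HopfS.mvT M b) := by
  simp only [Pi.add_apply, Pi.sub_apply, Pi.smul_apply, Pi.neg_apply, smul_eq_mul,
    cx_0, cx_1, cx_2, mv_0, mv_1, mv_2, mvT_0, mvT_1, mvT_2, vc_0, vc_1, vc_2, dt, HopfS.ad,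
    HopfS.adT, HopfS.qm, HopfS.im, Prod.fst_sub, Prod.snd_sub, Prod.fst_add, Prod.snd_add,
    Prod.fst_neg, Prod.snd_neg, Pi.zero_apply, zero_smul] 
  ring

theorem dt_comm (a b : V R) : dt a b = dt b a := by
  simp only [Pi.add_apply, Pi.sub_apply, Pi.smul_apply, Pi.neg_apply, smul_eq_mul,
    cx_0, cx_1, cx_2, mv_0, mv_1, mv_2, mvT_0, mvT_1, mvT_2, vc_0, vc_1, vc_2, dt, HopfS.ad,
    HopfS.adT, HopfS.qm, HopfS.im, Prod.fst_sub, Prod.snd_sub, Prod.fst_add, Prod.snd_add,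
    Prod.fst_neg, Prod.snd_neg, Pi.zero_apply, zero_smul] 
  ring

/-- the matrix of a linear map -/
def mat (F : V R → V R) : Fin 3 → V R :=
  fun i => ![F ![1, 0, 0] i, F ![0, 1, 0] i, F ![0, 0, 1] i]

theorem V_sum (a : V R) : a = a 0 • ![1, 0, 0] + a 1 • ![0, 1, 0] + a 2 • ![0, 0, 1] := by
  apply V_ext <;> (simp only [Pi.add_apply, Pi.sub_apply, Pi.smul_apply, Pi.neg_apply, smul_eq_mul,
    cx_0, cx_1, cx_2, mv_0, mv_1, mv_2, mvT_0, mvT_1, mvT_2, vc_0, vc_1, vc_2, dt, HopfS.ad,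
    HopfS.adT, HopfS.qm, HopfS.im, Prod.fst_sub, Prod.snd_sub, Prod.fst_add, Prod.snd_add,
    Prod.fst_neg, Prod.snd_neg, Pi.zero_apply, zero_smul, mat] <;> ring)

theorem mv_mat {F : V R → V R} (ha : ∀ a b, F (a + b) = F a + F b)
    (hs : ∀ (c : R) a, F (c • a) = c • F a) (a : V R) : mv (mat F) a = F a := by
  have h : F a = a 0 • F ![1, 0, 0] + a 1 • F ![0, 1, 0] + a 2 • F ![0, 0, 1] := by
    conv_lhs => rw [V_sum a, ha, ha, hs, hs, hs]
  rw [h]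
  apply V_ext <;> (simp only [Pi.add_apply, Pi.sub_apply, Pi.smul_apply, Pi.neg_apply, smul_eq_mul,
    cx_0, cx_1, cx_2, mv_0, mv_1, mv_2, mvT_0, mvT_1, mvT_2, vc_0, vc_1, vc_2, dt, HopfS.ad,
    HopfS.adT, HopfS.qm, HopfS.im, Prod.fst_sub, Prod.snd_sub, Prod.fst_add, Prod.snd_add,
    Prod.fst_neg, Prod.snd_neg, Pi.zero_apply, zero_smul, mat] <;> ring)

theorem mvT_mat {F G : V R → V R} (hF : ∀ a b, dt (F a) b = dt a (G b)) (b : V R) :
    HopfS.mvT (mat F) b = G b := by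
  have h0 := hF ![1, 0, 0] b
  have h1 := hF ![0, 1, 0] b
  have h2 := hF ![0, 0, 1] b
  simp only [dt, vc_0, vc_1, vc_2, zero_mul, one_mul, add_zero, zero_add] at h0 h1 h2
  apply V_ext
  · rw [← h0]; rfl
  · rw [← h1]; rfl
  · rw [← h2]; rfl

/-- conjugate quaternion -/
def qc (a : HopfS.Q4 R) : HopfS.Q4 R := (a.1, -a.2)

theorem Q_ext {a b : HopfS.Q4 R} (h : a.1 = b.1) (h0 : a.2 0 = b.2 0) (h1 : a.2 1 = b.2 1)
    (h2 : a.2 2 = b.2 2) : a = b := Prod.ext h (V_ext h0 h1 h2)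

theorem qm_assoc (a b c : HopfS.Q4 R) :
    HopfS.qm (HopfS.qm a b) c = HopfS.qm a (HopfS.qm b c) := by
  apply Q_ext <;> (simp only [Pi.add_apply, Pi.sub_apply, Pi.smul_apply, Pi.neg_apply, smul_eq_mul,
    cx_0, cx_1, cx_2, mv_0, mv_1, mv_2, mvT_0, mvT_1, mvT_2, vc_0, vc_1, vc_2, dt, HopfS.ad,
    HopfS.adT, HopfS.qm, HopfS.im, Prod.fst_sub, Prod.snd_sub, Prod.fst_add, Prod.snd_add,
    Prod.fst_neg, Prod.snd_neg, Pi.zero_apply, zero_smul, mat] <;> ring)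

theorem qc_qm (a b : HopfS.Q4 R) : qc (HopfS.qm a b) = HopfS.qm (qc b) (qc a) := by
  apply Q_ext <;> (simp only [Pi.add_apply, Pi.sub_apply, Pi.smul_apply, Pi.neg_apply, smul_eq_mul,
    cx_0, cx_1, cx_2, mv_0, mv_1, mv_2, mvT_0, mvT_1, mvT_2, vc_0, vc_1, vc_2, dt, HopfS.ad,
    HopfS.adT, HopfS.qm, HopfS.im, Prod.fst_sub, Prod.snd_sub, Prod.fst_add, Prod.snd_add,
    Prod.fst_neg, Prod.snd_neg, Pi.zero_apply, zero_smul, mat, qc] <;> ring)

theorem qm_neg_l (a b : HopfS.Q4 R) : HopfS.qm (-a) b = -HopfS.qm a b := by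
  apply Q_ext <;> (simp only [Pi.add_apply, Pi.sub_apply, Pi.smul_apply, Pi.neg_apply, smul_eq_mul,
    cx_0, cx_1, cx_2, mv_0, mv_1, mv_2, mvT_0, mvT_1, mvT_2, vc_0, vc_1, vc_2, dt, HopfS.ad,
    HopfS.adT, HopfS.qm, HopfS.im, Prod.fst_sub, Prod.snd_sub, Prod.fst_add, Prod.snd_add,
    Prod.fst_neg, Prod.snd_neg, Pi.zero_apply, zero_smul, mat] <;> ring)

theorem qc_im (w : V R) : qc (HopfS.im w) = -HopfS.im w := by
  apply Q_ext <;> (simp only [Pi.add_apply, Pi.sub_apply, Pi.smul_apply, Pi.neg_apply, smul_eq_mul,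
    cx_0, cx_1, cx_2, mv_0, mv_1, mv_2, mvT_0, mvT_1, mvT_2, vc_0, vc_1, vc_2, dt, HopfS.ad,
    HopfS.adT, HopfS.qm, HopfS.im, Prod.fst_sub, Prod.snd_sub, Prod.fst_add, Prod.snd_add,
    Prod.fst_neg, Prod.snd_neg, Pi.zero_apply, zero_smul, mat, qc] <;> ring)

/-- derivative of `ad g a` in direction `g'` -/
def dad (g g' : HopfS.Q4 R) (a : V R) : V R :=
  (g'.1 * g.1 + g.1 * g'.1 - (dt g'.2 g.2 + dt g.2 g'.2)) • a +
    ((2 * dt g'.2 a) • g.2 + (2 * dt g.2 a) • g'.2) + ((2 * g'.1) • cx g.2 a +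
      (2 * g.1) • cx g'.2 a)

/-- derivative of `adT g a` in direction `g'` -/
def dadT (g g' : HopfS.Q4 R) (a : V R) : V R :=
  (g'.1 * g.1 + g.1 * g'.1 - (dt g'.2 g.2 + dt g.2 g'.2)) • a +
    ((2 * dt g'.2 a) • g.2 + (2 * dt g.2 a) • g'.2) - ((2 * g'.1) • cx g.2 a +
      (2 * g.1) • cx g'.2 a)

theorem dad_eq (g : HopfS.Q4 R) (w1 w2 a : V R) :
    dad g (HopfS.qm g (HopfS.im w2) - HopfS.qm (HopfS.im w1) g) a =
      (2 : R) • (HopfS.ad g (cx w2 a) - cx w1 (HopfS.ad g a)) := by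
  apply V_ext <;> (simp only [Pi.add_apply, Pi.sub_apply, Pi.smul_apply, Pi.neg_apply, smul_eq_mul,
    cx_0, cx_1, cx_2, mv_0, mv_1, mv_2, mvT_0, mvT_1, mvT_2, vc_0, vc_1, vc_2, dt, HopfS.ad,
    HopfS.adT, HopfS.qm, HopfS.im, Prod.fst_sub, Prod.snd_sub, Prod.fst_add, Prod.snd_add,
    Prod.fst_neg, Prod.snd_neg, Pi.zero_apply, zero_smul, mat, dad] <;> ring)

theorem dadT_eq (g : HopfS.Q4 R) (w1 w2 a : V R) :
    dadT g (HopfS.qm g (HopfS.im w2) - HopfS.qm (HopfS.im w1) g) a =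
      (2 : R) • (HopfS.adT g (cx w1 a) - cx w2 (HopfS.adT g a)) := by
  apply V_ext <;> (simp only [Pi.add_apply, Pi.sub_apply, Pi.smul_apply, Pi.neg_apply, smul_eq_mul,
    cx_0, cx_1, cx_2, mv_0, mv_1, mv_2, mvT_0, mvT_1, mvT_2, vc_0, vc_1, vc_2, dt, HopfS.ad,
    HopfS.adT, HopfS.qm, HopfS.im, Prod.fst_sub, Prod.snd_sub, Prod.fst_add, Prod.snd_add,
    Prod.fst_neg, Prod.snd_neg, Pi.zero_apply, zero_smul, mat, dadT] <;> ring)

theorem dad_eq1 (g : HopfS.Q4 R) (w a : V R) :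
    dad g (HopfS.qm g (HopfS.im w)) a = (2 : R) • HopfS.ad g (cx w a) := by
  apply V_ext <;> (simp only [Pi.add_apply, Pi.sub_apply, Pi.smul_apply, Pi.neg_apply, smul_eq_mul,
    cx_0, cx_1, cx_2, mv_0, mv_1, mv_2, mvT_0, mvT_1, mvT_2, vc_0, vc_1, vc_2, dt, HopfS.ad,
    HopfS.adT, HopfS.qm, HopfS.im, Prod.fst_sub, Prod.snd_sub, Prod.fst_add, Prod.snd_add,
    Prod.fst_neg, Prod.snd_neg, Pi.zero_apply, zero_smul, mat, dad] <;> ring)

theorem dadT_eq1 (g : HopfS.Q4 R) (w a : V R) :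
    dadT g (HopfS.qm g (HopfS.im w)) a = -((2 : R) • cx w (HopfS.adT g a)) := by
  apply V_ext <;> (simp only [Pi.add_apply, Pi.sub_apply, Pi.smul_apply, Pi.neg_apply, smul_eq_mul,
    cx_0, cx_1, cx_2, mv_0, mv_1, mv_2, mvT_0, mvT_1, mvT_2, vc_0, vc_1, vc_2, dt, HopfS.ad,
    HopfS.adT, HopfS.qm, HopfS.im, Prod.fst_sub, Prod.snd_sub, Prod.fst_add, Prod.snd_add,
    Prod.fst_neg, Prod.snd_neg, Pi.zero_apply, zero_smul, mat, dadT] <;> ring)

end alg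

/-! ### Calculus -/

section hdc

variable {a b : ℝ → V ℝ} {a' b' : V ℝ} {g : ℝ → HopfS.Q4 ℝ} {g' : HopfS.Q4 ℝ} {t : ℝ}

theorem hd_pi (h : ∀ i, HasDerivAt (fun s => a s i) (a' i) t) : HasDerivAt a a' t :=
  hasDerivAt_pi.2 h

theorem hd_ap (h : HasDerivAt a a' t) (i : Fin 3) : HasDerivAt (fun s => a s i) (a' i) t :=
  hasDerivAt_pi.1 h i

theorem hd_dt (ha : HasDerivAt a a' t) (hb : HasDerivAt b b' t) :
    HasDerivAt (fun s => dt (a s) (b s)) (dt a' (b t) + dt (a t) b') t := by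
  have h := (((hd_ap ha 0).mul (hd_ap hb 0)).add ((hd_ap ha 1).mul (hd_ap hb 1))).add
    ((hd_ap ha 2).mul (hd_ap hb 2))
  refine h.congr_deriv ?_
  simp only [dt]
  ring

theorem hd_cx (ha : HasDerivAt a a' t) (hb : HasDerivAt b b' t) :
    HasDerivAt (fun s => cx (a s) (b s)) (cx a' (b t) + cx (a t) b') t := by
  refine hd_pi fun i => ?_
  fin_cases i
  · refine (((hd_ap ha 1).mul (hd_ap hb 2)).sub ((hd_ap ha 2).mul (hd_ap hb 1))).congr_deriv ?_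
    simp [cx]
    ring
  · refine (((hd_ap ha 2).mul (hd_ap hb 0)).sub ((hd_ap ha 0).mul (hd_ap hb 2))).congr_deriv ?_
    simp [cx]
    ring
  · refine (((hd_ap ha 0).mul (hd_ap hb 1)).sub ((hd_ap ha 1).mul (hd_ap hb 0))).congr_deriv ?_
    simp [cx]
    ring

theorem hd_mv (M : Fin 3 → V ℝ) (ha : HasDerivAt a a' t) :
    HasDerivAt (fun s => mv M (a s)) (mv M a') t := by
  refine hd_pi fun i => ?_
  fin_cases i
  · refine (hd_dt (hasDerivAt_const t (M 0)) ha).congr_deriv ?_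
    simp [dt, mv]
  · refine (hd_dt (hasDerivAt_const t (M 1)) ha).congr_deriv ?_
    simp [dt, mv]
  · refine (hd_dt (hasDerivAt_const t (M 2)) ha).congr_deriv ?_
    simp [dt, mv]

theorem hd_ad (hg : HasDerivAt g g' t) (ha : HasDerivAt a a' t) :
    HasDerivAt (fun s => HopfS.ad (g s) (a s)) (dad (g t) g' (a t) + HopfS.ad (g t) a') t := by
  have h1 : HasDerivAt (fun s => (g s).1) g'.1 t := hg.fst
  have h2 : HasDerivAt (fun s => (g s).2) g'.2 t := hg.snd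
  have h := ((((h1.mul h1).sub (hd_dt h2 h2)).smul ha).add
    (((hd_dt h2 ha).const_mul 2).smul h2)).add ((h1.const_mul 2).smul (hd_cx h2 ha))
  refine h.congr_deriv ?_
  simp only [dad, HopfS.ad, Pi.mul_apply, Pi.sub_apply]
  module

theorem hd_adT (hg : HasDerivAt g g' t) (ha : HasDerivAt a a' t) :
    HasDerivAt (fun s => HopfS.adT (g s) (a s)) (dadT (g t) g' (a t) + HopfS.adT (g t) a') t := by
  have h1 : HasDerivAt (fun s => (g s).1) g'.1 t := hg.fst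
  have h2 : HasDerivAt (fun s => (g s).2) g'.2 t := hg.snd
  have h := ((((h1.mul h1).sub (hd_dt h2 h2)).smul ha).add
    (((hd_dt h2 ha).const_mul 2).smul h2)).sub ((h1.const_mul 2).smul (hd_cx h2 ha))
  refine h.congr_deriv ?_
  simp only [dadT, HopfS.adT, Pi.mul_apply, Pi.sub_apply]
  module

theorem hd_qm {p : ℝ → HopfS.Q4 ℝ} {p' : HopfS.Q4 ℝ} (hg : HasDerivAt g g' t)
    (hp : HasDerivAt p p' t) :
    HasDerivAt (fun s => HopfS.qm (g s) (p s)) (HopfS.qm g' (p t) + HopfS.qm (g t) p') t := by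
  have h1 : HasDerivAt (fun s => (g s).1) g'.1 t := hg.fst
  have h2 : HasDerivAt (fun s => (g s).2) g'.2 t := hg.snd
  have k1 : HasDerivAt (fun s => (p s).1) p'.1 t := hp.fst
  have k2 : HasDerivAt (fun s => (p s).2) p'.2 t := hp.snd
  have ha := (h1.mul k1).sub (hd_dt h2 k2)
  have hb := ((h1.smul k2).add (k1.smul h2)).add (hd_cx h2 k2)
  refine (ha.prodMk hb).congr_deriv ?_
  refine Prod.ext ?_ ?_
  · simp only [HopfS.qm, Prod.fst_add]
    ring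
  · simp only [HopfS.qm, Prod.snd_add]
    module

theorem hd_qc (hg : HasDerivAt g g' t) : HasDerivAt (fun s => qc (g s)) (qc g') t := by
  have h1 : HasDerivAt (fun s => (g s).1) g'.1 t := hg.fst
  have h2 : HasDerivAt (fun s => (g s).2) g'.2 t := hg.snd
  exact h1.prodMk h2.neg

end hdc

end H124HS
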