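import Pool.Agent.H124R2.HS.Der

/-!
ROOM HS, task COMG (helper124): the smooth cometric on `S³ × S³`, and positive curvature from
the positivity of the curvature polynomial `HopfS.PPS`.
-/

open ContDiff Metric
open scoped Topology RealInnerProductSpace

set_option autoImplicit false
set_option linter.unusedSectionVars false
set_option linter.unusedSimpArgs false
set_option synthInstance.maxHeartbeats 400000
set_option maxHeartbeats 4000000

noncomputable section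

namespace H124HS

open HopfPP HopfG
open Pool.Agent.H893R5.HO Pool.Agent.H821R2 Pool.Agent.H821R3

/-! ### linearity of the cometric -/

theorem mv_Wadd (D : HopfS.Dat ℝ) (a b : V ℝ) :
    HopfS.Y0 D (a + b) = HopfS.Y0 D a + HopfS.Y0 D b := by
  simp only [HopfS.Y0, mv_add, mvT_add]
  module

theorem K0_add (D : HopfS.Dat ℝ) (a b : V6 ℝ) :
    HopfS.K0 D (a + b) = HopfS.K0 D a + HopfS.K0 D b := by
  refine Prod.ext ?_ ?_
  · simp only [HopfS.K0, HopfS.R0, HopfS.T0, Prod.fst_add, Prod.snd_add, mv_add, ad_add, adT_add,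
      mv_Wadd, cx_add_r, cx_sub_r, cx_add_l]
    module
  · simp only [HopfS.K0, HopfS.R0, HopfS.T0, Prod.fst_add, Prod.snd_add, mv_add, ad_add, adT_add,
      mv_Wadd, cx_add_r, cx_sub_r, cx_add_l]
    module

theorem K0_smul (D : HopfS.Dat ℝ) (c : ℝ) (a : V6 ℝ) :
    HopfS.K0 D (c • a) = c • HopfS.K0 D a := by
  have hY : HopfS.Y0 D (c • a.1) = c • HopfS.Y0 D a.1 := by
    simp only [HopfS.Y0, mv_smul, mvT_smul]
    module
  refine Prod.ext ?_ ?_
  · simp only [HopfS.K0, HopfS.R0, HopfS.T0, Prod.smul_fst, Prod.smul_snd, mv_add, mv_smul,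
      ad_smul, adT_smul, hY, cx_smul_r, cx_sub_r, cx_smul_l]
    module
  · simp only [HopfS.K0, HopfS.R0, HopfS.T0, Prod.smul_fst, Prod.smul_snd, mv_add, mv_smul,
      ad_smul, adT_smul, adT_add, hY, cx_smul_r, cx_sub_r, cx_smul_l]
    module

/-! ### smoothness -/

section cd

variable {E : Type} [NormedAddCommGroup E] [NormedSpace ℝ E] {a b : E → V ℝ}
  {g p : E → HopfS.Q4 ℝ}

theorem cd_pi (h : ∀ i, ContDiff ℝ ∞ fun z => a z i) : ContDiff ℝ ∞ a := contDiff_pi.2 h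

theorem cd_ap (h : ContDiff ℝ ∞ a) (i : Fin 3) : ContDiff ℝ ∞ fun z => a z i := contDiff_pi.1 h i

theorem cd_dt (ha : ContDiff ℝ ∞ a) (hb : ContDiff ℝ ∞ b) :
    ContDiff ℝ ∞ fun z => dt (a z) (b z) :=
  (((cd_ap ha 0).mul (cd_ap hb 0)).add ((cd_ap ha 1).mul (cd_ap hb 1))).add
    ((cd_ap ha 2).mul (cd_ap hb 2))

theorem cd_cx (ha : ContDiff ℝ ∞ a) (hb : ContDiff ℝ ∞ b) :
    ContDiff ℝ ∞ fun z => cx (a z) (b z) := by
  refine cd_pi fun i => ?_
  fin_cases i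
  · exact ((cd_ap ha 1).mul (cd_ap hb 2)).sub ((cd_ap ha 2).mul (cd_ap hb 1))
  · exact ((cd_ap ha 2).mul (cd_ap hb 0)).sub ((cd_ap ha 0).mul (cd_ap hb 2))
  · exact ((cd_ap ha 0).mul (cd_ap hb 1)).sub ((cd_ap ha 1).mul (cd_ap hb 0))

theorem cd_mv (M : Fin 3 → V ℝ) (ha : ContDiff ℝ ∞ a) : ContDiff ℝ ∞ fun z => mv M (a z) := by
  refine cd_pi fun i => ?_
  fin_cases i
  · exact cd_dt contDiff_const ha
  · exact cd_dt contDiff_const ha
  · exact cd_dt contDiff_const ha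

theorem cd_mvT (M : Fin 3 → V ℝ) (ha : ContDiff ℝ ∞ a) :
    ContDiff ℝ ∞ fun z => HopfS.mvT M (a z) := by
  refine cd_pi fun i => ?_
  fin_cases i
  · exact ((contDiff_const.mul (cd_ap ha 0)).add (contDiff_const.mul (cd_ap ha 1))).add
      (contDiff_const.mul (cd_ap ha 2))
  · exact ((contDiff_const.mul (cd_ap ha 0)).add (contDiff_const.mul (cd_ap ha 1))).add
      (contDiff_const.mul (cd_ap ha 2))
  · exact ((contDiff_const.mul (cd_ap ha 0)).add (contDiff_const.mul (cd_ap ha 1))).add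
      (contDiff_const.mul (cd_ap ha 2))

theorem cd_ad (hg : ContDiff ℝ ∞ g) (ha : ContDiff ℝ ∞ a) :
    ContDiff ℝ ∞ fun z => HopfS.ad (g z) (a z) := by
  have h1 : ContDiff ℝ ∞ fun z => (g z).1 := hg.fst
  have h2 : ContDiff ℝ ∞ fun z => (g z).2 := hg.snd
  exact ((((h1.mul h1).sub (cd_dt h2 h2)).smul ha).add
    ((contDiff_const.mul (cd_dt h2 ha)).smul h2)).add ((contDiff_const.mul h1).smul (cd_cx h2 ha))

theorem cd_adT (hg : ContDiff ℝ ∞ g) (ha : ContDiff ℝ ∞ a) :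
    ContDiff ℝ ∞ fun z => HopfS.adT (g z) (a z) := by
  have h1 : ContDiff ℝ ∞ fun z => (g z).1 := hg.fst
  have h2 : ContDiff ℝ ∞ fun z => (g z).2 := hg.snd
  exact ((((h1.mul h1).sub (cd_dt h2 h2)).smul ha).add
    ((contDiff_const.mul (cd_dt h2 ha)).smul h2)).sub ((contDiff_const.mul h1).smul (cd_cx h2 ha))

theorem cd_qm (hg : ContDiff ℝ ∞ g) (hp : ContDiff ℝ ∞ p) :
    ContDiff ℝ ∞ fun z => HopfS.qm (g z) (p z) := by
  have h1 : ContDiff ℝ ∞ fun z => (g z).1 := hg.fst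
  have h2 : ContDiff ℝ ∞ fun z => (g z).2 := hg.snd
  have k1 : ContDiff ℝ ∞ fun z => (p z).1 := hp.fst
  have k2 : ContDiff ℝ ∞ fun z => (p z).2 := hp.snd
  exact ((h1.mul k1).sub (cd_dt h2 k2)).prodMk (((h1.smul k2).add (k1.smul h2)).add (cd_cx h2 k2))

theorem cd_qc (hg : ContDiff ℝ ∞ g) : ContDiff ℝ ∞ fun z => qc (g z) := by
  have h1 : ContDiff ℝ ∞ fun z => (g z).1 := hg.fst
  have h2 : ContDiff ℝ ∞ fun z => (g z).2 := hg.snd
  exact h1.prodMk h2.neg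

theorem cd_q4 : ContDiff ℝ ∞ (q4 : U4 → HopfS.Q4 ℝ) := by
  have h : ∀ i : Fin 4, ContDiff ℝ ∞ fun x : U4 => x i := fun i =>
    (EuclideanSpace.proj i : U4 →L[ℝ] ℝ).contDiff
  refine (h 0).prodMk (cd_pi fun i => ?_)
  fin_cases i
  · exact h 1
  · exact h 2
  · exact h 3

variable (P : Par)

theorem cd_K0 {x y : E → HopfS.Q4 ℝ} (hx : ContDiff ℝ ∞ x) (hy : ContDiff ℝ ∞ y) (a : V6 ℝ) :
    ContDiff ℝ ∞ fun z => HopfS.K0 (DD P (x z) (y z)) a := by
  have hg : ContDiff ℝ ∞ fun z => HopfS.qm (qc (x z)) (y z) := cd_qm (cd_qc hx) hy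
  have hu : ContDiff ℝ ∞ fun z => HopfS.qm (qc P.v) (x z) := cd_qm contDiff_const hx
  have hg1 : ContDiff ℝ ∞ fun z => (HopfS.qm (qc (x z)) (y z)).1 := hg.fst
  have hu2 : ContDiff ℝ ∞ fun z => (HopfS.qm (qc P.v) (x z)).2 := hu.snd
  have hR : ContDiff ℝ ∞ fun z => HopfS.R0 (DD P (x z) (y z)) a.2 := cd_ad hg contDiff_const
  have hT : ContDiff ℝ ∞ fun z => HopfS.T0 (DD P (x z) (y z)) a.1 := cd_adT hg contDiff_const
  have hS : ContDiff ℝ ∞ fun z =>
      mv (DD P (x z) (y z)).Ws (a.1 + HopfS.R0 (DD P (x z) (y z)) a.2) := by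
    have h := cd_adT hx (cd_mv P.Wp (cd_ad hx ((contDiff_const (c := a.1)).add hR)))
    have e : (fun z => mv (DD P (x z) (y z)).Ws (a.1 + HopfS.R0 (DD P (x z) (y z)) a.2)) =
        fun z => HopfS.adT (x z) (mv P.Wp (HopfS.ad (x z)
          (a.1 + HopfS.R0 (DD P (x z) (y z)) a.2))) := by
      funext z
      rw [mv_Ws]
      rfl
    rw [e]
    exact h
  have hY : ContDiff ℝ ∞ fun z => HopfS.Y0 (DD P (x z) (y z)) a.1 := by
    have h := (cd_mv P.N (cd_ad hx (contDiff_const (c := a.1)))).add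
      (cd_adT hx (contDiff_const (c := HopfS.mvT P.N a.1)))
    have e : (fun z => HopfS.Y0 (DD P (x z) (y z)) a.1) =
        fun z => mv P.N (HopfS.ad (x z) a.1) + HopfS.adT (x z) (HopfS.mvT P.N a.1) := by
      funext z
      rw [HopfS.Y0, mv_Yq, mvT_Yq]
      rfl
    rw [e]
    exact h
  have hM : ContDiff ℝ ∞ fun z => a.2 - HopfS.R0 (DD P (x z) (y z)) a.2 := contDiff_const.sub hR
  have hMT : ContDiff ℝ ∞ fun z => a.1 - HopfS.T0 (DD P (x z) (y z)) a.1 := contDiff_const.sub hT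
  have hcu : ContDiff ℝ ∞ fun z => cx a.1 (HopfS.qm (qc P.v) (x z)).2 := cd_cx contDiff_const hu2
  have h1 := ((((contDiff_const (c := a.1 + mv P.Wb (a.1 + a.2))).add hS).add
    (contDiff_const (c := P.e) |>.smul (cd_cx hu2 hM))).add
    (((contDiff_const (c := P.f)).mul hg1).smul hM)).add ((contDiff_const (c := P.k)).smul hY)
  have h2 := ((((contDiff_const (c := a.2 + mv P.Wb (a.1 + a.2))).add (cd_adT hg hS)).add
    ((contDiff_const (c := P.e)).smul (hcu.sub (cd_adT hg hcu)))).add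
    (((contDiff_const (c := P.f)).mul hg1).smul hMT))
  exact h1.prodMk h2

end cd

/-! ### the cometric as a smooth map -/

variable (P : Par)

/-- `ℝ³ × ℝ³` in coordinates to Euclidean space -/
def vcL : V6 ℝ →L[ℝ] C6 :=
  ((EuclideanSpace.equiv (Fin 3) ℝ).symm : V ℝ →L[ℝ] U3).prodMap
    ((EuclideanSpace.equiv (Fin 3) ℝ).symm : V ℝ →L[ℝ] U3)

theorem cv6_vcL (a : V6 ℝ) : cv6 (vcL a) = a := rfl

theorem vcL_cv6 (a : C6) : vcL (cv6 a) = a := rfl

/-- the cometric -/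
def KC (z : U4 × U4) : C6 →L[ℝ] C6 :=
  LinearMap.toContinuousLinearMap
    { toFun := fun c => vcL (HopfS.K0 (Dz P z) (cv6 c))
      map_add' := fun a b => by rw [cv6_add, K0_add, map_add]
      map_smul' := fun c a => by rw [cv6_smul, K0_smul, map_smul]; rfl }

theorem KC_apply (z : U4 × U4) (c : C6) : KC P z c = vcL (HopfS.K0 (Dz P z) (cv6 c)) := rfl

theorem cd_KC : ContDiff ℝ ∞ (KC P) := by
  rw [contDiff_clm_apply_iff]
  intro c
  have h1 : ContDiff ℝ ∞ fun z : U4 × U4 => q4 z.1 := cd_q4.comp contDiff_fst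
  have h2 : ContDiff ℝ ∞ fun z : U4 × U4 => q4 z.2 := cd_q4.comp contDiff_snd
  exact vcL.contDiff.comp (cd_K0 P h1 h2 (cv6 c))

/-- first derivative -/
def KC1 : U4 × U4 → U4 × U4 →L[ℝ] C6 →L[ℝ] C6 := fderiv ℝ (KC P)

/-- second derivative -/
def KC2 : U4 × U4 → U4 × U4 →L[ℝ] U4 × U4 →L[ℝ] C6 →L[ℝ] C6 := fderiv ℝ (KC1 P)

theorem hKC (z : U4 × U4) : HasFDerivAt (KC P) (KC1 P z) z :=
  ((cd_KC P).differentiable (by simp) z).hasFDerivAt

theorem cd_KC1 : ContDiff ℝ ∞ (KC1 P) := (cd_KC P).fderiv_right (by simp)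

theorem hKC1 (z : U4 × U4) : HasFDerivAt (KC1 P) (KC2 P z) z :=
  ((cd_KC1 P).differentiable (by simp) z).hasFDerivAt

theorem q4_qR (w : U3) (x : U4) : q4 (qR w x) = HopfS.qm (q4 x) (HopfS.im (cv w)) := by
  apply Q_ext
  · simp only [q4, HopfS.qm, HopfS.im, dt, vc_0, vc_1, vc_2, qR0, cv]
    ring
  · simp only [q4, HopfS.qm, HopfS.im, Pi.add_apply, Pi.smul_apply, cx_0, vc_0, vc_1, vc_2,
      smul_eq_mul, qR1, cv]
    ring
  · simp only [q4, HopfS.qm, HopfS.im, Pi.add_apply, Pi.smul_apply, cx_1, vc_0, vc_1, vc_2,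
      smul_eq_mul, qR2, cv]
    ring
  · simp only [q4, HopfS.qm, HopfS.im, Pi.add_apply, Pi.smul_apply, cx_2, vc_0, vc_1, vc_2,
      smul_eq_mul, qR3, cv]
    ring

theorem hd_q4 (x ζ : U4) : HasDerivAt (fun s : ℝ => q4 (x + s • ζ)) (q4 ζ) 0 := by
  have h : ∀ i : Fin 4, HasDerivAt (fun s : ℝ => (x + s • ζ) i) (ζ i) 0 := by
    intro i
    have h1 := ((hasDerivAt_id (0 : ℝ)).mul_const (ζ i)).const_add (x i)
    refine (h1.congr_deriv (one_mul _)).congr_of_eventuallyEq ?_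
    exact Filter.Eventually.of_forall fun s => by simp
  refine (h 0).prodMk (hd_pi fun i => ?_)
  fin_cases i
  · exact h 1
  · exact h 2
  · exact h 3

theorem cur_of (z : U4 × U4) (w : C6) :
    Cur (fun s => q4 ((z + s • R33 w z).1)) (fun s => q4 ((z + s • R33 w z).2)) (cv6 w) 0 := by
  constructor
  · have h := hd_q4 z.1 (R33 w z).1
    refine h.congr_deriv ?_
    rw [R33_apply]
    simp only [zero_smul, add_zero]
    exact q4_qR w.1 z.1
  · have h := hd_q4 z.2 (R33 w z).2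
    refine h.congr_deriv ?_
    rw [R33_apply]
    simp only [zero_smul, add_zero]
    exact q4_qR w.2 z.2

theorem line_deriv (z ζ : U4 × U4) : HasDerivAt (fun s : ℝ => z + s • ζ) ζ 0 := by
  have h := ((hasDerivAt_id (0 : ℝ)).smul_const ζ).const_add z
  simpa using h

theorem k1_eq (z : U4 × U4) (w c : C6) :
    m33.k1 (KC1 P) z w c = vcL (HopfS.K1 (Dz P z) (cv6 w) (cv6 c)) := by
  have h1 := (cur_of z w).K0 (P := P) (cv6 c)
  have h2 := vcL.hasFDerivAt.comp_hasDerivAt (0 : ℝ) h1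
  have h3 : HasDerivAt (fun s : ℝ => KC P (z + s • R33 w z)) (KC1 P z (R33 w z)) 0 := by
    have e : z + (0 : ℝ) • R33 w z = z := by rw [zero_smul, add_zero]
    exact HasFDerivAt.comp_hasDerivAt_of_eq (0 : ℝ) (hKC P z) (line_deriv z (R33 w z)) e.symm
  have h5 := h3.clm_apply (hasDerivAt_const (0 : ℝ) c)
  have h6 : HasDerivAt (fun s : ℝ => KC P (z + s • R33 w z) c) (KC1 P z (R33 w z) c) 0 := by
    simpa using h5
  have h7 := h6.unique h2
  refine h7.trans ?_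
  simp only [zero_smul, add_zero]
  rfl

theorem k2_eq (z : U4 × U4) (w v c : C6) :
    m33.k2 (KC1 P) (KC2 P) z w v c = vcL (HopfS.K2 (Dz P z) (cv6 w) (cv6 v) (cv6 c)) := by
  have h1 := (cur_of z w).K1 (P := P) (cv6 v) (cv6 c)
  have h2 := vcL.hasFDerivAt.comp_hasDerivAt (0 : ℝ) h1
  have h3 : HasDerivAt (fun s : ℝ => KC1 P (z + s • R33 w z)) (KC2 P z (R33 w z)) 0 := by
    have e : z + (0 : ℝ) • R33 w z = z := by rw [zero_smul, add_zero]
    exact HasFDerivAt.comp_hasDerivAt_of_eq (E := U4 × U4 →L[ℝ] C6 →L[ℝ] C6) (l := KC1 P)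
      (l' := KC2 P z) (0 : ℝ) (hKC1 P z) (line_deriv z (R33 w z)) e.symm
  have h4 : HasDerivAt (fun s : ℝ => R33 v (z + s • R33 w z)) (R33 v (R33 w z)) 0 :=
    (R33 v).hasFDerivAt.comp_hasDerivAt (0 : ℝ) (line_deriv z (R33 w z))
  have h5 := (h3.clm_apply h4).clm_apply (hasDerivAt_const (0 : ℝ) c)
  have h6 : HasDerivAt (fun s : ℝ => KC1 P (z + s • R33 w z) (R33 v (z + s • R33 w z)) c)
      (m33.k2 (KC1 P) (KC2 P) z w v c) 0 := by
    refine h5.congr_deriv ?_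
    simp only [zero_smul, add_zero, map_zero]
    rfl
  have e : (fun s : ℝ => KC1 P (z + s • R33 w z) (R33 v (z + s • R33 w z)) c) =
      fun s : ℝ => vcL (HopfS.K1 (Dz P (z + s • R33 w z)) (cv6 v) (cv6 c)) := by
    funext s
    exact k1_eq P (z + s • R33 w z) v c
  rw [e] at h6
  have h7 := h6.unique h2
  refine h7.trans ?_
  simp only [zero_smul, add_zero]
  rfl

/-- comparison of the two curvature expressions -/
theorem PM33_KC (z : U4 × U4) (α β Γ : C6) :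
    4 * PM33 (KC P z) (m33.k1 (KC1 P) z) (m33.k2 (KC1 P) (KC2 P) z) α β Γ =
      PM4 (HopfS.K0 (Dz P z)) (HopfS.K1 (Dz P z)) (HopfS.K2 (Dz P z)) (cv6 α) (cv6 β) (cv6 Γ) := by
  apply PM33_eq
  · intro a
    rfl
  · intro w a
    rw [k1_eq, cv6_vcL]
  · intro w w' a
    rw [k2_eq, cv6_vcL]

/-! ### symmetry -/

/-- symmetric matrices -/
def Sym (M : Fin 3 → V ℝ) : Prop := ∀ a b, dt (mv M a) b = dt a (mv M b)

theorem dt_add_l (a b c : V ℝ) : dt (a + b) c = dt a c + dt b c := by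
  simp only [dt, Pi.add_apply]
  ring

theorem dt_add_r (a b c : V ℝ) : dt a (b + c) = dt a b + dt a c := by
  simp only [dt, Pi.add_apply]
  ring

theorem dt_sub_l (a b c : V ℝ) : dt (a - b) c = dt a c - dt b c := by
  simp only [dt, Pi.sub_apply]
  ring

theorem dt_sub_r (a b c : V ℝ) : dt a (b - c) = dt a b - dt a c := by
  simp only [dt, Pi.sub_apply]
  ring

theorem dt_smul_l (c : ℝ) (a b : V ℝ) : dt (c • a) b = c * dt a b := by
  simp only [dt, Pi.smul_apply, smul_eq_mul]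
  ring

theorem dt_smul_r (c : ℝ) (a b : V ℝ) : dt a (c • b) = c * dt a b := by
  simp only [dt, Pi.smul_apply, smul_eq_mul]
  ring

theorem dt_cx (a b c : V ℝ) : dt (cx a b) c = dt b (cx c a) := by
  simp only [dt, cx_0, cx_1, cx_2]
  ring

theorem Sym.Ws {M : Par} (h : Sym M.Wp) (x y : HopfS.Q4 ℝ) : Sym (DD M x y).Ws := by
  intro a b
  rw [mv_Ws, mv_Ws, WsF, WsF, dt_comm, ← dt_ad, ← dt_ad, dt_comm, h]

/-- the bilinear form of the cometric -/
theorem form_eq {x y : HopfS.Q4 ℝ} (a b : V6 ℝ) :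
    dt6 (HopfS.K0 (DD P x y) a) b = dt a.1 b.1 + dt a.2 b.2 +
      dt (mv P.Wb (a.1 + a.2)) (b.1 + b.2) +
      dt (mv (DD P x y).Ws (a.1 + HopfS.R0 (DD P x y) a.2)) (b.1 + HopfS.R0 (DD P x y) b.2) +
      P.e * (dt (cx b.1 (DD P x y).u.2) (a.2 - HopfS.R0 (DD P x y) a.2) +
        dt (cx a.1 (DD P x y).u.2) (b.2 - HopfS.R0 (DD P x y) b.2)) +
      P.f * (DD P x y).g.1 * (dt (a.2 - HopfS.R0 (DD P x y) a.2) b.1 +
        dt a.1 (b.2 - HopfS.R0 (DD P x y) b.2)) +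
      P.k * (dt (mv (DD P x y).Yq a.1) b.1 + dt a.1 (mv (DD P x y).Yq b.1)) := by
  have hT : ∀ c d : V ℝ, dt (HopfS.T0 (DD P x y) c) d = dt c (HopfS.R0 (DD P x y) d) := by
    intro c d
    rw [dt_comm, HopfS.T0, ← dt_ad, dt_comm]
    rfl
  have hYT : ∀ c d : V ℝ, dt (HopfS.mvT (DD P x y).Yq c) d = dt c (mv (DD P x y).Yq d) := by
    intro c d
    rw [dt_comm, ← dt_mvT, dt_comm]
  have hc : ∀ c d e : V ℝ, dt (cx c d) e = dt (cx e c) d := by
    intro c d e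
    simp only [dt, cx_0, cx_1, cx_2]
    ring
  simp only [dt6, HopfS.K0, HopfS.Y0, dt_add_l, dt_sub_l, dt_add_r, dt_sub_r, dt_smul_l, hT, hYT]
  have e1 : (DD P x y).e = P.e := rfl
  have e2 : (DD P x y).f = P.f := rfl
  have e3 : (DD P x y).k = P.k := rfl
  have e4 : (DD P x y).Wb = P.Wb := rfl
  have h5 : ∀ c : V ℝ, dt (cx (DD P x y).u.2 c) b.1 = dt (cx b.1 (DD P x y).u.2) c := by
    intro c
    simp only [dt, cx_0, cx_1, cx_2]
    ring
  rw [e1, e2, e3, e4, cx_sub_r, dt_sub_l, h5, h5]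
  ring

theorem K0_symm (hb : Sym P.Wb) (hp : Sym P.Wp) (x y : HopfS.Q4 ℝ) (a b : V6 ℝ) :
    dt6 (HopfS.K0 (DD P x y) a) b = dt6 a (HopfS.K0 (DD P x y) b) := by
  have h : dt6 a (HopfS.K0 (DD P x y) b) = dt6 (HopfS.K0 (DD P x y) b) a := by
    rw [dt6, dt6, dt_comm, dt_comm a.2]
  rw [h, form_eq, form_eq, hb, hp.Ws x y]
  rw [dt_comm (a.1 + a.2), dt_comm (a.1 + HopfS.R0 (DD P x y) a.2), dt_comm a.1 b.1,
    dt_comm a.2 b.2, dt_comm (a.2 - HopfS.R0 (DD P x y) a.2) b.1,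
    dt_comm a.1 (b.2 - HopfS.R0 (DD P x y) b.2), dt_comm (mv (DD P x y).Yq a.1) b.1,
    dt_comm a.1 (mv (DD P x y).Yq b.1)]
  ring

/-! ### positivity -/

/-- norm of a quaternion -/
def qn (a : HopfS.Q4 ℝ) : ℝ := a.1 * a.1 + dt a.2 a.2

theorem qn_qm (a b : HopfS.Q4 ℝ) : qn (HopfS.qm a b) = qn a * qn b := by
  simp only [qn, HopfS.qm, dt, cx_0, cx_1, cx_2, Pi.add_apply, Pi.smul_apply, smul_eq_mul]
  ring

theorem qn_qc (a : HopfS.Q4 ℝ) : qn (qc a) = qn a := by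
  simp only [qn, qc, dt, Pi.neg_apply]
  ring

theorem dt_ad_ad (g : HopfS.Q4 ℝ) (a : V ℝ) :
    dt (HopfS.ad g a) (HopfS.ad g a) = qn g * qn g * dt a a := by
  simp only [qn, HopfS.ad, dt, cx_0, cx_1, cx_2, Pi.add_apply, Pi.smul_apply, smul_eq_mul]
  ring

theorem dt_self_nonneg (a : V ℝ) : 0 ≤ dt a a := by
  simp only [dt]
  nlinarith [mul_self_nonneg (a 0), mul_self_nonneg (a 1), mul_self_nonneg (a 2)]

theorem qn_q4 (x : U4) (h : ‖x‖ = 1) : qn (q4 x) = 1 := by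
  have h1 : ⟪x, x⟫ = 1 := by rw [real_inner_self_eq_norm_sq, h]; norm_num
  rw [inner_U4] at h1
  simp only [qn, q4, dt, vc_0, vc_1, vc_2]
  linarith

theorem abs_two_dt (a b : V ℝ) (s : ℝ) (hs : 0 < s) :
    |2 * dt a b| ≤ s * dt a a + s⁻¹ * dt b b := by
  have h1 := dt_self_nonneg (s • a + b)
  have h2 := dt_self_nonneg (s • a - b)
  have e1 : dt (s • a + b) (s • a + b) = s * (s * dt a a + s⁻¹ * dt b b + 2 * dt a b) := by
    simp only [dt, Pi.add_apply, Pi.smul_apply, smul_eq_mul]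
    field_simp
    ring
  have e2 : dt (s • a - b) (s • a - b) = s * (s * dt a a + s⁻¹ * dt b b - 2 * dt a b) := by
    simp only [dt, Pi.sub_apply, Pi.smul_apply, smul_eq_mul]
    field_simp
    ring
  rw [e1] at h1
  rw [e2] at h2
  have h3 := nonneg_of_mul_nonneg_right h1 hs
  have h4 := nonneg_of_mul_nonneg_right h2 hs
  rw [abs_le]
  constructor <;> linarith

theorem cx_sq (a b : V ℝ) : dt (cx a b) (cx a b) = dt a a * dt b b - dt a b ^ 2 := by
  simp only [dt, cx_0, cx_1, cx_2]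
  ring

/-- The conditions on the parameters for positive definiteness. -/
structure Par.Ok (P : Par) : Prop where
  sb : Sym P.Wb
  sp : Sym P.Wp
  pb : ∀ a, 0 ≤ dt (mv P.Wb a) a
  pp : ∀ a, 0 ≤ dt (mv P.Wp a) a
  v : qn P.v = 1
  small : ∃ n : ℝ, (∀ a b, |2 * dt (mv P.N a) b| ≤ n * (dt a a + dt b b)) ∧
    2 * |P.e| + 2 * |P.f| + 2 * |P.k| * n < 1

theorem K0_pos (h : P.Ok) {x y : HopfS.Q4 ℝ} (hx : qn x = 1) (hy : qn y = 1) (a : V6 ℝ)
    (ha : a ≠ 0) : 0 < dt6 (HopfS.K0 (DD P x y) a) a := by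
  obtain ⟨n, hn, hs⟩ := h.small
  have hg : qn (DD P x y).g = 1 := by
    change qn (HopfS.qm (qc x) y) = 1
    rw [qn_qm, qn_qc, hx, hy, one_mul]
  have hu : qn (DD P x y).u = 1 := by
    change qn (HopfS.qm (qc P.v) x) = 1
    rw [qn_qm, qn_qc, hx, h.v, one_mul]
  have hL := dt_self_nonneg a.1
  have hM := dt_self_nonneg a.2
  have hq : 0 < dt a.1 a.1 + dt a.2 a.2 := by
    rcases (add_nonneg hL hM).eq_or_lt with h0 | h0
    · exfalso
      apply ha
      have k1 : dt a.1 a.1 = 0 := by linarith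
      have k2 : dt a.2 a.2 = 0 := by linarith
      have hz : ∀ c : V ℝ, dt c c = 0 → c = 0 := by
        intro c hc
        simp only [dt] at hc
        have m0 := mul_self_nonneg (c 0)
        have m1 := mul_self_nonneg (c 1)
        have m2 := mul_self_nonneg (c 2)
        apply V_ext
        · exact mul_self_eq_zero.1 (by linarith)
        · exact mul_self_eq_zero.1 (by linarith)
        · exact mul_self_eq_zero.1 (by linarith)
      exact Prod.ext (hz _ k1) (hz _ k2)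
    · exact h0
  have hRR : dt (HopfS.R0 (DD P x y) a.2) (HopfS.R0 (DD P x y) a.2) = dt a.2 a.2 := by
    change dt (HopfS.ad (DD P x y).g a.2) (HopfS.ad (DD P x y).g a.2) = _
    rw [dt_ad_ad, hg, one_mul, one_mul]
  have hMR : dt (a.2 - HopfS.R0 (DD P x y) a.2) (a.2 - HopfS.R0 (DD P x y) a.2) ≤
      4 * dt a.2 a.2 := by
    have k := dt_self_nonneg (a.2 + HopfS.R0 (DD P x y) a.2)
    have e1 : dt (a.2 - HopfS.R0 (DD P x y) a.2) (a.2 - HopfS.R0 (DD P x y) a.2) +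
        dt (a.2 + HopfS.R0 (DD P x y) a.2) (a.2 + HopfS.R0 (DD P x y) a.2) =
        2 * dt a.2 a.2 + 2 * dt (HopfS.R0 (DD P x y) a.2) (HopfS.R0 (DD P x y) a.2) := by
      simp only [dt, Pi.add_apply, Pi.sub_apply]
      ring
    rw [hRR] at e1
    linarith
  have hu2 : dt (DD P x y).u.2 (DD P x y).u.2 ≤ 1 := by
    have := mul_self_nonneg (DD P x y).u.1
    unfold qn at hu
    linarith
  have hg2 : (DD P x y).g.1 * (DD P x y).g.1 ≤ 1 := by
    have := dt_self_nonneg (DD P x y).g.2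
    unfold qn at hg
    linarith
  have hE : |2 * dt (cx a.1 (DD P x y).u.2) (a.2 - HopfS.R0 (DD P x y) a.2)| ≤
      2 * (dt a.1 a.1 + dt a.2 a.2) := by
    refine (abs_two_dt _ _ 2 (by norm_num)).trans ?_
    have k : dt (cx a.1 (DD P x y).u.2) (cx a.1 (DD P x y).u.2) ≤ dt a.1 a.1 := by
      rw [cx_sq]
      nlinarith [sq_nonneg (dt a.1 (DD P x y).u.2)]
    linarith
  have hF : |2 * ((DD P x y).g.1 * dt a.1 (a.2 - HopfS.R0 (DD P x y) a.2))| ≤
      2 * (dt a.1 a.1 + dt a.2 a.2) := by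
    rw [← dt_smul_l]
    refine (abs_two_dt _ _ 2 (by norm_num)).trans ?_
    rw [dt_smul_l, dt_smul_r]
    nlinarith
  have hY : |2 * dt (mv (DD P x y).Yq a.1) a.1| ≤ 2 * n * (dt a.1 a.1 + dt a.2 a.2) := by
    rw [mv_Yq]
    have k := hn (HopfS.ad x a.1) a.1
    rw [dt_ad_ad, hx, one_mul, one_mul] at k
    have k2 : 0 ≤ n * (dt a.2 a.2) := by
      have k3 := hn a.2 a.2
      have k4 := abs_nonneg (2 * dt (mv P.N a.2) a.2)
      nlinarith
    refine k.trans ?_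
    nlinarith
  rw [form_eq]
  have hW1 := h.pb (a.1 + a.2)
  have hW2 : 0 ≤ dt (mv (DD P x y).Ws (a.1 + HopfS.R0 (DD P x y) a.2))
      (a.1 + HopfS.R0 (DD P x y) a.2) := by
    rw [mv_Ws, WsF, dt_comm, ← dt_ad, dt_comm]
    exact h.pp _
  have q1 : -(|P.e| * (2 * (dt a.1 a.1 + dt a.2 a.2))) ≤
      P.e * (2 * dt (cx a.1 (DD P x y).u.2) (a.2 - HopfS.R0 (DD P x y) a.2)) := by
    have k1 := neg_abs_le (P.e * (2 * dt (cx a.1 (DD P x y).u.2)
      (a.2 - HopfS.R0 (DD P x y) a.2)))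
    rw [abs_mul] at k1
    have k2 := mul_le_mul_of_nonneg_left hE (abs_nonneg P.e)
    linarith
  have q2 : -(|P.f| * (2 * (dt a.1 a.1 + dt a.2 a.2))) ≤
      P.f * (2 * ((DD P x y).g.1 * dt a.1 (a.2 - HopfS.R0 (DD P x y) a.2))) := by
    have k1 := neg_abs_le (P.f * (2 * ((DD P x y).g.1 * dt a.1
      (a.2 - HopfS.R0 (DD P x y) a.2))))
    rw [abs_mul] at k1
    have k2 := mul_le_mul_of_nonneg_left hF (abs_nonneg P.f)
    linarith
  have q3 : -(|P.k| * (2 * n * (dt a.1 a.1 + dt a.2 a.2))) ≤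
      P.k * (2 * dt (mv (DD P x y).Yq a.1) a.1) := by
    have k1 := neg_abs_le (P.k * (2 * dt (mv (DD P x y).Yq a.1) a.1))
    rw [abs_mul] at k1
    have k2 := mul_le_mul_of_nonneg_left hY (abs_nonneg P.k)
    linarith
  have c1 : dt a.1 (mv (DD P x y).Yq a.1) = dt (mv (DD P x y).Yq a.1) a.1 := dt_comm _ _
  have c2 : dt (a.2 - HopfS.R0 (DD P x y) a.2) a.1 = dt a.1 (a.2 - HopfS.R0 (DD P x y) a.2) :=
    dt_comm _ _
  rw [c1, c2]
  have fin : 0 < (1 - (2 * |P.e| + 2 * |P.f| + 2 * |P.k| * n)) *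
      (dt a.1 a.1 + dt a.2 a.2) := mul_pos (by linarith) hq
  nlinarith

/-- **Positive curvature on `S³ × S³` from the positivity of the curvature polynomial.** -/
theorem posS33_of (h : P.Ok)
    (hpos : ∀ x y : U4, ‖x‖ = 1 → ‖y‖ = 1 → ∀ α β Γ : V6 ℝ, dt6 α α = 1 → dt6 β β = 1 →
      dt6 α β = 0 → 0 < HopfS.PPS (Dz P (x, y)) α β Γ) : H486HS.PosS33 := by
  have key := exists_pos_S33 (K := KC P) (K1 := KC1 P) (K2 := KC2 P) (cd_KC P) (hKC P) (hKC1 P)
    (by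
      intro z c d
      rw [cv6_dt6, cv6_dt6, KC_apply, KC_apply, cv6_vcL, cv6_vcL]
      exact K0_symm P h.sb h.sp _ _ _ _)
    (by
      intro x y hx hy c hc
      rw [cv6_dt6, KC_apply, cv6_vcL]
      change 0 < dt6 (cv6 c) (HopfS.K0 (DD P (q4 x) (q4 y)) (cv6 c))
      rw [← K0_symm P h.sb h.sp]
      refine K0_pos P h (qn_q4 x hx) (qn_q4 y hy) _ ?_
      intro h0
      apply hc
      have h1 := congrArg vcL h0
      rw [vcL_cv6, map_zero] at h1
      exact h1)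
    (by
      intro x y hx hy α β Γ hα hβ hαβ
      rw [cv6_dt6] at hα hβ hαβ
      have h1 := PM33_KC P (x, y) α β Γ
      have h2 := hpos x y hx hy (cv6 α) (cv6 β) (cv6 Γ - HopfS.Phi (Dz P (x, y)) (cv6 α) (cv6 β))
        hα hβ hαβ
      rw [HopfS.PPS, sub_add_cancel, ← h1] at h2
      linarith)
  obtain ⟨g, cov, R, h1, h2, _, h4⟩ := key
  exact ⟨g, cov, R, h1, h2, h4⟩

end H124HS
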