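import Pool.Agent.H124R2.HS.Cal

/-!
ROOM HS, task COMG (helper124): the data of the cometric on `S³ × S³` at a point and their
derivatives along the left invariant fields.
-/

open ContDiff Metric
open scoped Topology RealInnerProductSpace

set_option autoImplicit false
set_option linter.unusedSectionVars false

noncomputable section

namespace H124HS

open HopfPP HopfG
open Pool.Agent.H893R5.HO

/-- The parameters of the cometric. -/
structure Par where
  /-- body matrix -/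
  Wb : Fin 3 → V ℝ
  /-- space matrix -/
  Wp : Fin 3 → V ℝ
  /-- matrix of the quadratic term `L · N L'` -/
  N : Fin 3 → V ℝ
  /-- the quaternion of the twist -/
  v : HopfS.Q4 ℝ
  /-- coefficient of the twist -/
  e : ℝ
  /-- coefficient of the invariant term -/
  f : ℝ
  /-- coefficient of the quadratic term -/
  k : ℝ

/-- a vector of `ℝ⁴` as a quaternion -/
def q4 (x : U4) : HopfS.Q4 ℝ := (x 0, ![x 1, x 2, x 3])

variable (P : Par)

/-- the space matrix in the body frame of `x` -/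
def WsF (x : HopfS.Q4 ℝ) (a : V ℝ) : V ℝ := HopfS.adT x (mv P.Wp (HopfS.ad x a))

/-- the quadratic term in the body frame of `x` -/
def YF (x : HopfS.Q4 ℝ) (a : V ℝ) : V ℝ := mv P.N (HopfS.ad x a)

/-- transpose -/
def YTF (x : HopfS.Q4 ℝ) (a : V ℝ) : V ℝ := HopfS.adT x (HopfS.mvT P.N a)

/-- the data at the quaternions `x, y` -/
def DD (x y : HopfS.Q4 ℝ) : HopfS.Dat ℝ where
  Wb := P.Wb
  Ws := mat (WsF P x)
  Yq := mat (YF P x)
  u := HopfS.qm (qc P.v) x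
  g := HopfS.qm (qc x) y
  e := P.e
  f := P.f
  k := P.k

/-- the data at a point of `ℝ⁴ × ℝ⁴` -/
def Dz (z : U4 × U4) : HopfS.Dat ℝ := DD P (q4 z.1) (q4 z.2)

theorem mv_Ws (x y : HopfS.Q4 ℝ) (a : V ℝ) : mv (DD P x y).Ws a = WsF P x a := by
  apply mv_mat
  · intro a b
    simp only [WsF, ad_add, mv_add, adT_add]
  · intro c a
    simp only [WsF, ad_smul, mv_smul, adT_smul]

theorem mv_Yq (x y : HopfS.Q4 ℝ) (a : V ℝ) : mv (DD P x y).Yq a = YF P x a := by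
  apply mv_mat
  · intro a b
    simp only [YF, ad_add, mv_add]
  · intro c a
    simp only [YF, ad_smul, mv_smul]

theorem mvT_Yq (x y : HopfS.Q4 ℝ) (a : V ℝ) : HopfS.mvT (DD P x y).Yq a = YTF P x a := by
  apply mvT_mat
  intro a b
  rw [YF, YTF, dt_mvT, dt_ad]

/-- A curve of data: `x' = x w₁`, `y' = y w₂` at the time `t`. -/
structure Cur (x y : ℝ → HopfS.Q4 ℝ) (w : V6 ℝ) (t : ℝ) : Prop where
  hx : HasDerivAt x (HopfS.qm (x t) (HopfS.im w.1)) t
  hy : HasDerivAt y (HopfS.qm (y t) (HopfS.im w.2)) t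

variable {P} {x y : ℝ → HopfS.Q4 ℝ} {w : V6 ℝ} {t : ℝ} {a : ℝ → V ℝ} {a' : V ℝ}

theorem Cur.u (h : Cur x y w t) :
    HasDerivAt (fun s => (DD P (x s) (y s)).u) (HopfS.uD (DD P (x t) (y t)) w) t := by
  have h1 := hd_qm (hasDerivAt_const t (qc P.v)) h.hx
  refine h1.congr_deriv ?_
  have h2 : HopfS.qm (0 : HopfS.Q4 ℝ) (x t) = 0 := by
    apply Q_ext <;> simp [HopfS.qm, dt, cx]
  rw [h2, zero_add, ← qm_assoc]
  rfl

theorem Cur.g (h : Cur x y w t) :
    HasDerivAt (fun s => (DD P (x s) (y s)).g) (HopfS.gD (DD P (x t) (y t)) w) t := by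
  have h1 := hd_qm (hd_qc h.hx) h.hy
  refine h1.congr_deriv ?_
  simp only [qc_qm, qc_im, qm_neg_l, qm_assoc, HopfS.gD, DD]
  abel

theorem Cur.R0 (h : Cur x y w t) (ha : HasDerivAt a a' t) :
    HasDerivAt (fun s => HopfS.R0 (DD P (x s) (y s)) (a s))
      (HopfS.R1 (DD P (x t) (y t)) w (a t) + HopfS.R0 (DD P (x t) (y t)) a') t := by
  refine (hd_ad (h.g (P := P)) ha).congr_deriv ?_
  rw [HopfS.gD, dad_eq]
  rfl

theorem Cur.T0 (h : Cur x y w t) (ha : HasDerivAt a a' t) :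
    HasDerivAt (fun s => HopfS.T0 (DD P (x s) (y s)) (a s))
      (HopfS.T1 (DD P (x t) (y t)) w (a t) + HopfS.T0 (DD P (x t) (y t)) a') t := by
  refine (hd_adT (h.g (P := P)) ha).congr_deriv ?_
  rw [HopfS.gD, dadT_eq]
  rfl

theorem Cur.V0 (h : Cur x y w t) (ha : HasDerivAt a a' t) :
    HasDerivAt (fun s => mv (DD P (x s) (y s)).Ws (a s))
      (HopfS.V1 (DD P (x t) (y t)) w (a t) + mv (DD P (x t) (y t)).Ws a') t := by
  have h1 := hd_adT h.hx (hd_mv P.Wp (hd_ad h.hx ha))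
  have e1 : (fun s => mv (DD P (x s) (y s)).Ws (a s)) =
      fun s => HopfS.adT (x s) (mv P.Wp (HopfS.ad (x s) (a s))) := by
    funext s
    rw [mv_Ws]
    rfl
  rw [e1]
  refine h1.congr_deriv ?_
  simp only [dad_eq1, dadT_eq1, HopfS.V1, mv_Ws, WsF, mv_add, adT_add, mv_smul, adT_smul]
  module

theorem Cur.Yq (h : Cur x y w t) (ha : HasDerivAt a a' t) :
    HasDerivAt (fun s => mv (DD P (x s) (y s)).Yq (a s))
      ((2 : ℝ) • mv (DD P (x t) (y t)).Yq (cx w.1 (a t)) + mv (DD P (x t) (y t)).Yq a') t := by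
  have h1 := hd_mv P.N (hd_ad h.hx ha)
  have e1 : (fun s => mv (DD P (x s) (y s)).Yq (a s)) =
      fun s => mv P.N (HopfS.ad (x s) (a s)) := by
    funext s
    rw [mv_Yq]
    rfl
  rw [e1]
  refine h1.congr_deriv ?_
  simp only [dad_eq1, mv_Yq, YF, mv_add, mv_smul]

theorem hd_mvT (M : Fin 3 → V ℝ) (ha : HasDerivAt a a' t) :
    HasDerivAt (fun s => HopfS.mvT M (a s)) (HopfS.mvT M a') t := by
  refine hd_pi fun i => ?_
  fin_cases i
  · exact (((hd_ap ha 0).const_mul (M 0 0)).add ((hd_ap ha 1).const_mul (M 1 0))).add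
      ((hd_ap ha 2).const_mul (M 2 0))
  · exact (((hd_ap ha 0).const_mul (M 0 1)).add ((hd_ap ha 1).const_mul (M 1 1))).add
      ((hd_ap ha 2).const_mul (M 2 1))
  · exact (((hd_ap ha 0).const_mul (M 0 2)).add ((hd_ap ha 1).const_mul (M 1 2))).add
      ((hd_ap ha 2).const_mul (M 2 2))

theorem Cur.YT (h : Cur x y w t) (ha : HasDerivAt a a' t) :
    HasDerivAt (fun s => HopfS.mvT (DD P (x s) (y s)).Yq (a s))
      (-((2 : ℝ) • cx w.1 (HopfS.mvT (DD P (x t) (y t)).Yq (a t))) +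
        HopfS.mvT (DD P (x t) (y t)).Yq a') t := by
  have h1 := hd_adT h.hx (hd_mvT P.N ha)
  have e1 : (fun s => HopfS.mvT (DD P (x s) (y s)).Yq (a s)) =
      fun s => HopfS.adT (x s) (HopfS.mvT P.N (a s)) := by
    funext s
    rw [mvT_Yq]
    rfl
  rw [e1]
  refine h1.congr_deriv ?_
  simp only [dadT_eq1, mvT_Yq, YTF]

/-! ### second derivatives -/

theorem Cur.uD (h : Cur x y w t) (v : V6 ℝ) :
    HasDerivAt (fun s => HopfS.uD (DD P (x s) (y s)) v)
      (HopfS.uDD (DD P (x t) (y t)) w v) t := by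
  refine (hd_qm (h.u (P := P)) (hasDerivAt_const t (HopfS.im v.1))).congr_deriv ?_
  have h2 : ∀ q : HopfS.Q4 ℝ, HopfS.qm q 0 = 0 := by
    intro q
    apply Q_ext <;> simp [HopfS.qm, dt, cx]
  rw [h2, add_zero]
  rfl

theorem Cur.gD (h : Cur x y w t) (v : V6 ℝ) :
    HasDerivAt (fun s => HopfS.gD (DD P (x s) (y s)) v)
      (HopfS.gDD (DD P (x t) (y t)) w v) t := by
  refine ((hd_qm (h.g (P := P)) (hasDerivAt_const t (HopfS.im v.2))).sub
    (hd_qm (hasDerivAt_const t (HopfS.im v.1)) (h.g (P := P)))).congr_deriv ?_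
  have h2 : ∀ q : HopfS.Q4 ℝ, HopfS.qm q 0 = 0 := by
    intro q
    apply Q_ext <;> simp [HopfS.qm, dt, cx]
  have h3 : ∀ q : HopfS.Q4 ℝ, HopfS.qm 0 q = 0 := by
    intro q
    apply Q_ext <;> simp [HopfS.qm, dt, cx]
  rw [h2, h3, add_zero, zero_add]
  rfl

theorem hd_cxr (c : V ℝ) (ha : HasDerivAt a a' t) :
    HasDerivAt (fun s => cx c (a s)) (cx c a') t := by
  refine (hd_cx (hasDerivAt_const t c) ha).congr_deriv ?_
  have h3 : ∀ q : V ℝ, cx 0 q = 0 := by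
    intro q
    apply V_ext <;> simp [cx]
  rw [h3, zero_add]

theorem hd_cxl (c : V ℝ) (ha : HasDerivAt a a' t) :
    HasDerivAt (fun s => cx (a s) c) (cx a' c) t := by
  refine (hd_cx ha (hasDerivAt_const t c)).congr_deriv ?_
  have h3 : ∀ q : V ℝ, cx q 0 = 0 := by
    intro q
    apply V_ext <;> simp [cx]
  rw [h3, add_zero]

theorem R1_add (D : HopfS.Dat ℝ) (v : V6 ℝ) (a b : V ℝ) :
    HopfS.R1 D v (a + b) = HopfS.R1 D v a + HopfS.R1 D v b := by
  simp only [HopfS.R1, HopfS.R0, cx_add_r, ad_add]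
  module

theorem T1_add (D : HopfS.Dat ℝ) (v : V6 ℝ) (a b : V ℝ) :
    HopfS.T1 D v (a + b) = HopfS.T1 D v a + HopfS.T1 D v b := by
  simp only [HopfS.T1, HopfS.T0, cx_add_r, adT_add]
  module

theorem V1_add (D : HopfS.Dat ℝ) (v : V6 ℝ) (a b : V ℝ) :
    HopfS.V1 D v (a + b) = HopfS.V1 D v a + HopfS.V1 D v b := by
  simp only [HopfS.V1, cx_add_r, mv_add]
  module

theorem Cur.R1 (h : Cur x y w t) (v : V6 ℝ) (ha : HasDerivAt a a' t) :
    HasDerivAt (fun s => HopfS.R1 (DD P (x s) (y s)) v (a s))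
      (HopfS.R2 (DD P (x t) (y t)) w v (a t) + HopfS.R1 (DD P (x t) (y t)) v a') t := by
  refine (((h.R0 (P := P) (hd_cxr v.2 ha)).sub
    (hd_cxr v.1 (h.R0 (P := P) ha))).const_smul (2 : ℝ)).congr_deriv ?_
  simp only [HopfS.R2, HopfS.R1, cx_add_r]
  module

theorem Cur.T1 (h : Cur x y w t) (v : V6 ℝ) (ha : HasDerivAt a a' t) :
    HasDerivAt (fun s => HopfS.T1 (DD P (x s) (y s)) v (a s))
      (HopfS.T2 (DD P (x t) (y t)) w v (a t) + HopfS.T1 (DD P (x t) (y t)) v a') t := by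
  refine (((h.T0 (P := P) (hd_cxr v.1 ha)).sub
    (hd_cxr v.2 (h.T0 (P := P) ha))).const_smul (2 : ℝ)).congr_deriv ?_
  simp only [HopfS.T2, HopfS.T1, cx_add_r]
  module

theorem Cur.V1 (h : Cur x y w t) (v : V6 ℝ) (ha : HasDerivAt a a' t) :
    HasDerivAt (fun s => HopfS.V1 (DD P (x s) (y s)) v (a s))
      (HopfS.V2 (DD P (x t) (y t)) w v (a t) + HopfS.V1 (DD P (x t) (y t)) v a') t := by
  refine (((h.V0 (P := P) (hd_cxr v.1 ha)).sub
    (hd_cxr v.1 (h.V0 (P := P) ha))).const_smul (2 : ℝ)).congr_deriv ?_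
  simp only [HopfS.V2, HopfS.V1, cx_add_r]
  module

theorem Cur.Y0 (h : Cur x y w t) (a : V ℝ) :
    HasDerivAt (fun s => HopfS.Y0 (DD P (x s) (y s)) a)
      (HopfS.Y1 (DD P (x t) (y t)) w a) t := by
  refine ((h.Yq (P := P) (hasDerivAt_const t a)).add
    (h.YT (P := P) (hasDerivAt_const t a))).congr_deriv ?_
  have h1 : mv (DD P (x t) (y t)).Yq (0 : V ℝ) = 0 := by
    rw [mv_Yq]
    apply V_ext <;> simp [YF, HopfS.ad, mv, dt, cx]
  have h2 : HopfS.mvT (DD P (x t) (y t)).Yq (0 : V ℝ) = 0 := by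
    apply V_ext <;> simp [HopfS.mvT]
  rw [h1, h2]
  simp only [HopfS.Y1]
  module

theorem Cur.Y1 (h : Cur x y w t) (v : V6 ℝ) (a : V ℝ) :
    HasDerivAt (fun s => HopfS.Y1 (DD P (x s) (y s)) v a)
      (HopfS.Y2 (DD P (x t) (y t)) w v a) t := by
  refine (((h.Yq (P := P) (hasDerivAt_const t (cx v.1 a))).sub
    (hd_cxr v.1 (h.YT (P := P) (hasDerivAt_const t a)))).const_smul (2 : ℝ)).congr_deriv ?_
  have h1 : mv (DD P (x t) (y t)).Yq (0 : V ℝ) = 0 := by
    rw [mv_Yq]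
    apply V_ext <;> simp [YF, HopfS.ad, mv, dt, cx]
  have h2 : HopfS.mvT (DD P (x t) (y t)).Yq (0 : V ℝ) = 0 := by
    apply V_ext <;> simp [HopfS.mvT]
  rw [h1, h2]
  simp only [HopfS.Y2, cx_neg_r, cx_smul_r, add_zero]
  module

end H124HS
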