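import Pool.Agent.H124R2.HS.Dat

/-!
ROOM HS, task COMG (helper124): first and second derivative of the cometric along the left
invariant fields.
-/

open ContDiff Metric
open scoped Topology RealInnerProductSpace

set_option autoImplicit false
set_option linter.unusedSectionVars false

noncomputable section

namespace H124HS

open HopfPP HopfG
open Pool.Agent.H893R5.HO

variable {P : Par} {x y : ℝ → HopfS.Q4 ℝ} {w : V6 ℝ} {t : ℝ} {a : ℝ → V ℝ} {a' : V ℝ}

theorem ad_zero (g : HopfS.Q4 ℝ) : HopfS.ad g (0 : V ℝ) = 0 := by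
  have h := ad_smul g (0 : ℝ) (0 : V ℝ)
  rwa [zero_smul, zero_smul] at h

theorem adT_zero (g : HopfS.Q4 ℝ) : HopfS.adT g (0 : V ℝ) = 0 := by
  have h := adT_smul g (0 : ℝ) (0 : V ℝ)
  rwa [zero_smul, zero_smul] at h

theorem cx_zero_r (a : V ℝ) : cx a (0 : V ℝ) = 0 := by
  have h := cx_smul_r (0 : ℝ) a (0 : V ℝ)
  rwa [zero_smul, zero_smul] at h

theorem R1_zero (D : HopfS.Dat ℝ) (v : V6 ℝ) : HopfS.R1 D v 0 = 0 := by
  simp only [HopfS.R1, HopfS.R0, cx_zero_r, ad_zero, sub_zero, smul_zero]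

theorem T1_zero (D : HopfS.Dat ℝ) (v : V6 ℝ) : HopfS.T1 D v 0 = 0 := by
  simp only [HopfS.T1, HopfS.T0, cx_zero_r, adT_zero, sub_zero, smul_zero]

theorem Cur.R0c (h : Cur x y w t) (a : V ℝ) :
    HasDerivAt (fun s => HopfS.R0 (DD P (x s) (y s)) a) (HopfS.R1 (DD P (x t) (y t)) w a) t := by
  refine (h.R0 (P := P) (hasDerivAt_const t a)).congr_deriv ?_
  rw [HopfS.R0, ad_zero, add_zero]

theorem Cur.T0c (h : Cur x y w t) (a : V ℝ) :
    HasDerivAt (fun s => HopfS.T0 (DD P (x s) (y s)) a) (HopfS.T1 (DD P (x t) (y t)) w a) t := by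
  refine (h.T0 (P := P) (hasDerivAt_const t a)).congr_deriv ?_
  rw [HopfS.T0, adT_zero, add_zero]

theorem Cur.R1c (h : Cur x y w t) (v : V6 ℝ) (a : V ℝ) :
    HasDerivAt (fun s => HopfS.R1 (DD P (x s) (y s)) v a)
      (HopfS.R2 (DD P (x t) (y t)) w v a) t := by
  refine (h.R1 (P := P) v (hasDerivAt_const t a)).congr_deriv ?_
  rw [R1_zero, add_zero]

theorem Cur.T1c (h : Cur x y w t) (v : V6 ℝ) (a : V ℝ) :
    HasDerivAt (fun s => HopfS.T1 (DD P (x s) (y s)) v a)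
      (HopfS.T2 (DD P (x t) (y t)) w v a) t := by
  refine (h.T1 (P := P) v (hasDerivAt_const t a)).congr_deriv ?_
  rw [T1_zero, add_zero]

theorem Cur.u2 (h : Cur x y w t) :
    HasDerivAt (fun s => (DD P (x s) (y s)).u.2) (HopfS.uD (DD P (x t) (y t)) w).2 t :=
  (h.u (P := P)).snd

theorem Cur.g1 (h : Cur x y w t) :
    HasDerivAt (fun s => (DD P (x s) (y s)).g.1) (HopfS.gD (DD P (x t) (y t)) w).1 t :=
  (h.g (P := P)).fst

theorem Cur.uD2 (h : Cur x y w t) (v : V6 ℝ) :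
    HasDerivAt (fun s => (HopfS.uD (DD P (x s) (y s)) v).2)
      (HopfS.uDD (DD P (x t) (y t)) w v).2 t :=
  (h.uD (P := P) v).snd

theorem Cur.gD1 (h : Cur x y w t) (v : V6 ℝ) :
    HasDerivAt (fun s => (HopfS.gD (DD P (x s) (y s)) v).1)
      (HopfS.gDD (DD P (x t) (y t)) w v).1 t :=
  (h.gD (P := P) v).fst

/-- the inner argument `L + R M` -/
theorem Cur.S (h : Cur x y w t) (a : V6 ℝ) :
    HasDerivAt (fun s => a.1 + HopfS.R0 (DD P (x s) (y s)) a.2)
      (HopfS.R1 (DD P (x t) (y t)) w a.2) t := by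
  refine ((hasDerivAt_const t a.1).add (h.R0c (P := P) a.2)).congr_deriv ?_
  rw [zero_add]

theorem Cur.M (h : Cur x y w t) (a : V6 ℝ) :
    HasDerivAt (fun s => a.2 - HopfS.R0 (DD P (x s) (y s)) a.2)
      (-HopfS.R1 (DD P (x t) (y t)) w a.2) t := by
  refine ((hasDerivAt_const t a.2).sub (h.R0c (P := P) a.2)).congr_deriv ?_
  rw [zero_sub]

theorem Cur.MT (h : Cur x y w t) (a : V6 ℝ) :
    HasDerivAt (fun s => a.1 - HopfS.T0 (DD P (x s) (y s)) a.1)
      (-HopfS.T1 (DD P (x t) (y t)) w a.1) t := by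
  refine ((hasDerivAt_const t a.1).sub (h.T0c (P := P) a.1)).congr_deriv ?_
  rw [zero_sub]

/-- the space part of the first component -/
theorem Cur.VS (h : Cur x y w t) (a : V6 ℝ) :
    HasDerivAt (fun s => mv (DD P (x s) (y s)).Ws (a.1 + HopfS.R0 (DD P (x s) (y s)) a.2))
      (HopfS.V1 (DD P (x t) (y t)) w (a.1 + HopfS.R0 (DD P (x t) (y t)) a.2) +
        mv (DD P (x t) (y t)).Ws (HopfS.R1 (DD P (x t) (y t)) w a.2)) t :=
  h.V0 (P := P) (h.S (P := P) a)

theorem Cur.K0 (h : Cur x y w t) (a : V6 ℝ) :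
    HasDerivAt (fun s => HopfS.K0 (DD P (x s) (y s)) a)
      (HopfS.K1 (DD P (x t) (y t)) w a) t := by
  have hS := h.VS (P := P) a
  have hM := h.M (P := P) a
  have hMT := h.MT (P := P) a
  have hu := h.u2 (P := P)
  have hg := h.g1 (P := P)
  have h1 := (((((hasDerivAt_const t (a.1 + mv P.Wb (a.1 + a.2))).add hS).add
    ((hd_cx hu hM).const_smul P.e)).add ((hg.const_mul P.f).smul hM)).add
    ((h.Y0 (P := P) a.1).const_smul P.k))
  have hcu := hd_cxr a.1 hu
  have h2 := (((hasDerivAt_const t (a.2 + mv P.Wb (a.1 + a.2))).add (h.T0 (P := P) hS)).add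
    ((hcu.sub (h.T0 (P := P) hcu)).const_smul P.e)).add ((hg.const_mul P.f).smul hMT)
  refine (h1.prodMk h2).congr_deriv ?_
  refine Prod.ext ?_ ?_
  · simp only [HopfS.K1, cx_neg_r]
    have e1 : (DD P (x t) (y t)).e = P.e := rfl
    have e2 : (DD P (x t) (y t)).f = P.f := rfl
    have e3 : (DD P (x t) (y t)).k = P.k := rfl
    rw [e1, e2, e3]
    module
  · simp only [HopfS.K1]
    have e1 : (DD P (x t) (y t)).e = P.e := rfl
    have e2 : (DD P (x t) (y t)).f = P.f := rfl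
    rw [e1, e2]
    module

theorem T0_add (D : HopfS.Dat ℝ) (a b : V ℝ) :
    HopfS.T0 D (a + b) = HopfS.T0 D a + HopfS.T0 D b := adT_add _ _ _

theorem Cur.K1 (h : Cur x y w t) (v a : V6 ℝ) :
    HasDerivAt (fun s => HopfS.K1 (DD P (x s) (y s)) v a)
      (HopfS.K2 (DD P (x t) (y t)) w v a) t := by
  have hSS := h.S (P := P) a
  have hS := h.VS (P := P) a
  have hM := h.M (P := P) a
  have hMT := h.MT (P := P) a
  have hu := h.u2 (P := P)
  have hg := h.g1 (P := P)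
  have hud := h.uD2 (P := P) v
  have hgd := h.gD1 (P := P) v
  have hR1 := h.R1c (P := P) v a.2
  have hT1 := h.T1c (P := P) v a.1
  have hV1 := h.V1 (P := P) v hSS
  have hVR := h.V0 (P := P) hR1
  have h1 := (((hV1.add hVR).add (((hd_cx hud hM).sub (hd_cx hu hR1)).const_smul P.e)).add
    (((hgd.smul hM).sub (hg.smul hR1)).const_smul P.f)).add
    ((h.Y1 (P := P) v a.1).const_smul P.k)
  have hcu := hd_cxr a.1 hu
  have hcud := hd_cxr a.1 hud
  have h2 := (((h.T1 (P := P) v hS).add (h.T0 (P := P) (hV1.add hVR))).add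
    (((hcud.sub (h.T1 (P := P) v hcu)).sub (h.T0 (P := P) hcud)).const_smul P.e)).add
    (((hgd.smul hMT).sub (hg.smul hT1)).const_smul P.f)
  refine (h1.prodMk h2).congr_deriv ?_
  refine Prod.ext ?_ ?_
  · simp only [HopfS.K2, cx_neg_r]
    have e1 : (DD P (x t) (y t)).e = P.e := rfl
    have e2 : (DD P (x t) (y t)).f = P.f := rfl
    have e3 : (DD P (x t) (y t)).k = P.k := rfl
    rw [e1, e2, e3]
    module
  · simp only [HopfS.K2, T0_add, T1_add, Pi.add_apply]
    have e1 : (DD P (x t) (y t)).e = P.e := rfl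
    have e2 : (DD P (x t) (y t)).f = P.f := rfl
    rw [e1, e2]
    module

end H124HS
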