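import Pool.Agent.H893R5.HS.Der

/-!
ROOM HS, task COMG (helper124): the cometric `K0` of helper917 along the lines
`x (1 + s w₁)`, `y (1 + s w₂)`: real derivatives from helper893's identities, by evaluation of
polynomials.
-/

open ContDiff
open scoped Polynomial

set_option autoImplicit false
set_option linter.unusedSectionVars false
set_option linter.unusedSimpArgs false

noncomputable section

namespace HopfG.HS.C124

open HopfPP HopfG HopfG.Eqv

section nat

variable {R S : Type*} [CommRing R] [CommRing S] (f : R →+* S)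

theorem mapV_e0 : mapV f (![1, 0, 0] : V R) = ![1, 0, 0] := by
  rw [mapV_vec, map_one, map_zero]

theorem mapV_e1 : mapV f (![0, 1, 0] : V R) = ![0, 1, 0] := by
  rw [mapV_vec, map_one, map_zero]

theorem mapV_e2 : mapV f (![0, 0, 1] : V R) = ![0, 0, 1] := by
  rw [mapV_vec, map_one, map_zero]

theorem map_row (a b c : V R) :
    (fun i => mapV f ((![a, b, c] : Fin 3 → V R) i)) = ![mapV f a, mapV f b, mapV f c] := by
  funext i; fin_cases i <;> rfl

theorem Dat_ext {D E : Dat R} (h1 : D.W = E.W) (h2 : D.Wp = E.Wp) (h3 : D.A = E.A)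
    (h4 : D.v = E.v) (h5 : D.e = E.e) (h6 : D.l = E.l) : D = E := by
  cases D; cases E
  simp only at h1 h2 h3 h4 h5 h6
  rw [h1, h2, h3, h4, h5, h6]

theorem map_at (D : Dat R) (x : Q4 R) : mapD f (D.at x) = (mapD f D).at (map4 f x) := by
  apply Dat_ext
  · rfl
  · change (fun i => mapV f (tr3 _ i)) = tr3 _
    rw [map_tr3, map_row]
    simp only [mapV_Ad, mapV_mv', map4_qc, mapV_e0, mapV_e1, mapV_e2]
    rfl
  · change (fun i => mapV f (tr3 _ i)) = tr3 _
    rw [map_tr3, map_row]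
    simp only [mapV_Ad, mapV_mv', map4_qc, mapV_e0, mapV_e1, mapV_e2]
    rfl
  · change map4 f (qm (qc x) D.v) = qm (qc (map4 f x)) (map4 f D.v)
    rw [map4_qm, map4_qc]
  · rfl
  · rfl

theorem map_uu (ε : R) (w : V R) : map4 f (uu ε w) = uu (f ε) (mapV f w) := by
  rw [uu, map4_vec, uu]
  simp only [map_one, map_mul, mapV]

theorem map_mvg (ε : R) (g : Q4 R) (w : V6 R) :
    map4 f (mvg ε g w) = mvg (f ε) (map4 f g) (map6 f w) := by
  simp only [mvg, map4_qm, map4_qc, map_uu, map6_fst, map6_snd]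

end nat

/-! ### polynomials -/

/-- the ideal `(X²)` -/
def I2 : Ideal ℝ[X] := Ideal.span {(Polynomial.X : ℝ[X]) ^ 2}

/-- the quotient map -/
def mk2 : ℝ[X] →+* ℝ[X] ⧸ I2 := Ideal.Quotient.mk I2

theorem eps_sq : mk2 Polynomial.X * mk2 Polynomial.X = 0 := by
  rw [← map_mul, ← pow_two]
  exact Ideal.Quotient.eq_zero_iff_mem.2 (Ideal.subset_span rfl)

theorem poly_der (p : ℝ[X]) (a b : ℝ)
    (h : mk2 p = mk2 (Polynomial.C a) + mk2 Polynomial.X * mk2 (Polynomial.C b)) :
    HasDerivAt (fun s : ℝ => p.eval s) b 0 := by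
  rw [← map_mul, ← map_add] at h
  have h1 := Ideal.Quotient.eq.1 h
  rw [I2, Ideal.mem_span_singleton'] at h1
  obtain ⟨q, hq⟩ := h1
  have e : p = q * Polynomial.X ^ 2 + (Polynomial.C a + Polynomial.X * Polynomial.C b) := by
    rw [hq]; ring
  have h2 := p.hasDerivAt 0
  have h3 : p.derivative.eval 0 = b := by
    rw [e]
    simp
  rwa [h3] at h2

theorem poly_derV (P : V ℝ[X]) (a b : V ℝ)
    (h : mapV mk2 P = mapV mk2 (mapV Polynomial.C a) +
      mk2 Polynomial.X • mapV mk2 (mapV Polynomial.C b)) :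
    HasDerivAt (fun s : ℝ => mapV (Polynomial.evalRingHom s) P) b 0 := by
  refine hasDerivAt_pi.2 fun i => ?_
  exact poly_der (P i) (a i) (b i) (congrFun h i)

theorem poly_der6 (P : V6 ℝ[X]) (a b : V6 ℝ)
    (h : map6 mk2 P = map6 mk2 (map6 Polynomial.C a) +
      mk2 Polynomial.X • map6 mk2 (map6 Polynomial.C b)) :
    HasDerivAt (fun s : ℝ => map6 (Polynomial.evalRingHom s) P) b 0 :=
  (poly_derV P.1 a.1 b.1 (congrArg Prod.fst h)).prodMk
    (poly_derV P.2 a.2 b.2 (congrArg Prod.snd h))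

/-- evaluation after constants is the identity -/
theorem ev_C (s : ℝ) (a : V6 ℝ) :
    map6 (Polynomial.evalRingHom s) (map6 Polynomial.C a) = a := by
  refine Prod.ext (funext fun i => ?_) (funext fun i => ?_)
  · exact Polynomial.eval_C
  · exact Polynomial.eval_C

theorem ev_C4 (s : ℝ) (g : Q4 ℝ) :
    map4 (Polynomial.evalRingHom s) (map4 Polynomial.C g) = g :=
  funext fun i => Polynomial.eval_C

theorem ev_CD (s : ℝ) (D : Dat ℝ) :
    mapD (Polynomial.evalRingHom s) (mapD Polynomial.C D) = D := by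
  apply Dat_ext
  · funext i j; exact Polynomial.eval_C
  · funext i j; exact Polynomial.eval_C
  · funext i j; exact Polynomial.eval_C
  · funext i; exact Polynomial.eval_C
  · exact Polynomial.eval_C
  · exact Polynomial.eval_C

/-- the derivative of `K0` -/
theorem K0_hd (D : Dat ℝ) (g : Q4 ℝ) (w a : V6 ℝ) :
    HasDerivAt (fun s : ℝ => K0 (D.at (uu s w.1)) (mvg s g w) a) (K1 D g w a) 0 := by
  set P : V6 ℝ[X] := K0 ((mapD Polynomial.C D).at (uu Polynomial.X (map6 Polynomial.C w).1))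
    (mvg Polynomial.X (map4 Polynomial.C g) (map6 Polynomial.C w)) (map6 Polynomial.C a) with hP
  have h1 : (fun s : ℝ => K0 (D.at (uu s w.1)) (mvg s g w) a) =
      fun s : ℝ => map6 (Polynomial.evalRingHom s) P := by
    funext s
    rw [hP, map_K0, map_at, map_uu, map_mvg, ev_CD, ev_C4, ev_C, ← map6_fst, ev_C]
    simp [ev_C]
  rw [h1]
  refine poly_der6 P (K0 D g a) _ ?_
  have h2 := K0_der eps_sq (mapD mk2 (mapD Polynomial.C D)) (map4 mk2 (map4 Polynomial.C g))
    (map6 mk2 (map6 Polynomial.C w)) (map6 mk2 (map6 Polynomial.C a))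
  rw [hP, map_K0, map_at, map_uu, map_mvg, ← map6_fst, h2, map_K0, map_K0, map_K1, map_K1]

/-- the derivative of `K1` -/
theorem K1_hd (D : Dat ℝ) (g : Q4 ℝ) (w u a : V6 ℝ) :
    HasDerivAt (fun s : ℝ => K1 (D.at (uu s w.1)) (mvg s g w) u a) (K2 D g w u a) 0 := by
  set P : V6 ℝ[X] := K1 ((mapD Polynomial.C D).at (uu Polynomial.X (map6 Polynomial.C w).1))
    (mvg Polynomial.X (map4 Polynomial.C g) (map6 Polynomial.C w)) (map6 Polynomial.C u)
    (map6 Polynomial.C a) with hP
  have h1 : (fun s : ℝ => K1 (D.at (uu s w.1)) (mvg s g w) u a) =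
      fun s : ℝ => map6 (Polynomial.evalRingHom s) P := by
    funext s
    rw [hP, map_K1, map_at, map_uu, map_mvg, ev_CD, ev_C4, ev_C, ev_C, ← map6_fst, ev_C]
    simp [ev_C]
  rw [h1]
  refine poly_der6 P (K1 D g u a) _ ?_
  have h2 := K1_der eps_sq (mapD mk2 (mapD Polynomial.C D)) (map4 mk2 (map4 Polynomial.C g))
    (map6 mk2 (map6 Polynomial.C w)) (map6 mk2 (map6 Polynomial.C u))
    (map6 mk2 (map6 Polynomial.C a))
  rw [hP, map_K1, map_at, map_uu, map_mvg, ← map6_fst, h2, map_K1, map_K1, map_K2, map_K2]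

end HopfG.HS.C124
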